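import Mathlib
import Pool.Agent.H715R2.Compact

/-! # Long powers of a fixed matrix in the bases of an orbit: limits -/

open Filter Topology Matrix

namespace Pool.Agent.N759.WP

open H715R2

variable {d : ℕ}

/-- size of a row -/
noncomputable def rs {n : ℕ} (h : Matrix (Fin d) (Fin n) ℝ) (r : Fin d) : ℝ := ∑ k, |h r k|

lemma rs_nonneg {n : ℕ} (h : Matrix (Fin d) (Fin n) ℝ) (r : Fin d) : 0 ≤ rs h r :=
  Finset.sum_nonneg fun _ _ => abs_nonneg _

lemma abs_le_rs {n : ℕ} (h : Matrix (Fin d) (Fin n) ℝ) (r : Fin d) (k : Fin n) :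
    |h r k| ≤ rs h r :=
  Finset.single_le_sum (f := fun k => |h r k|) (fun _ _ => abs_nonneg _) (Finset.mem_univ k)

lemma rs_diag (a : Fin d → ℝ) (A : Matrix (Fin d) (Fin d) ℝ) (r : Fin d) :
    rs (diagonal a * A) r = |a r| * rs A r := by
  unfold rs
  rw [Finset.mul_sum]
  refine Finset.sum_congr rfl fun k _ => ?_
  rw [diagonal_mul, abs_mul]

lemma continuous_rs (M : Matrix (Fin d) (Fin d) ℝ) :
    Continuous (fun h : Matrix (Fin d) (Fin d) ℝ => ∏ r, rs (h * M) r) := by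
  refine continuous_finsetProd _ fun r _ => ?_
  unfold rs
  refine continuous_finsetSum _ fun k _ => ?_
  refine continuous_abs.comp ?_
  exact (continuous_apply_apply r k).comp (continuous_id.matrix_mul continuous_const)

/-- powers of a positive number different from one are unbounded in one direction -/
lemma zpow_unbounded {q C : ℝ} (hq : 0 < q) (h : ∀ i : ℤ, q ^ i ≤ C) : q = 1 := by
  by_contra hne
  rcases lt_or_gt_of_ne hne with h1 | h1
  · obtain ⟨n, hn⟩ := pow_unbounded_of_one_lt C ((one_lt_inv₀ hq).2 h1)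
    have h2 := h (-(n : ℤ))
    rw [_root_.zpow_neg, zpow_natCast, ← inv_pow] at h2
    exact absurd h2 (not_le.2 hn)
  · obtain ⟨n, hn⟩ := pow_unbounded_of_one_lt C h1
    have h2 := h (n : ℤ)
    rw [zpow_natCast] at h2
    exact absurd h2 (not_le.2 hn)

/-- the integer matrix of an integral power, as a real matrix -/
noncomputable def pw (U : (Matrix (Fin d) (Fin d) ℤ)ˣ) (i : ℤ) : Matrix (Fin d) (Fin d) ℝ :=
  zR ((U ^ i : (Matrix (Fin d) (Fin d) ℤ)ˣ) : Matrix (Fin d) (Fin d) ℤ)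

lemma pw_add (U : (Matrix (Fin d) (Fin d) ℤ)ˣ) (i j : ℤ) : pw U (i + j) = pw U i * pw U j := by
  rw [pw, pw, pw, _root_.zpow_add, Units.val_mul, zR_mul]

lemma pw_zero (U : (Matrix (Fin d) (Fin d) ℤ)ˣ) : pw U 0 = 1 := by
  rw [pw, _root_.zpow_zero, Units.val_one, zR_one]

lemma pw_one (U : (Matrix (Fin d) (Fin d) ℤ)ˣ) : pw U 1 = zR (U : Matrix (Fin d) (Fin d) ℤ) := by
  rw [pw, _root_.zpow_one]

lemma units_det (U : (Matrix (Fin d) (Fin d) ℤ)ˣ) :
    |(U : Matrix (Fin d) (Fin d) ℤ).det| = 1 :=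
  Int.isUnit_iff_abs_eq.1 ((Matrix.isUnit_iff_isUnit_det _).1 U.isUnit)

lemma pw_det (U : (Matrix (Fin d) (Fin d) ℤ)ˣ) (i : ℤ) : |(pw U i).det| = 1 := by
  rw [pw, det_zR]
  exact abs_det_of_isUnit ((Matrix.isUnit_iff_isUnit_det _).1 (U ^ i).isUnit)

/-- the limit at the centres of long powers -/
theorem word_limit {g : Matrix (Fin d) (Fin d) ℝ} {C : ℝ} (U : (Matrix (Fin d) (Fin d) ℤ)ˣ)
    (h : ∀ m : ℕ, ∃ V : Matrix (Fin d) (Fin d) ℤ, |V.det| = 1 ∧ ∀ j : ℕ, j ≤ m →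
      ∃ a : Fin d → ℝ, |∏ i, a i| = 1 ∧ ∀ i k, |(diagonal a * g * zR
        (V * (U : Matrix (Fin d) (Fin d) ℤ) ^ j)) i k| ≤ C) :
    ∃ (a : ℕ → Fin d → ℝ) (γ : ℕ → Matrix (Fin d) (Fin d) ℤ) (h' : Matrix (Fin d) (Fin d) ℝ),
      (∀ n, |∏ i, a n i| = 1) ∧ (∀ n, |(γ n).det| = 1) ∧
      Tendsto (fun n => diagonal (a n) * g * zR (γ n)) atTop (𝓝 h') ∧
      ∀ i : ℤ, ∏ r, rs (h' * pw U i) r ≤ (d * C) ^ d := by
  choose V hV hgood using fun m : ℕ => h (2 * (m + 1))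
  choose a ha hC using fun (m j : ℕ) (hj : j ≤ 2 * (m + 1)) => hgood m j hj
  set x : ℕ → Matrix (Fin d) (Fin d) ℝ := fun m =>
    diagonal (a m (m + 1) (by omega)) * g * zR
      (V m * (U : Matrix (Fin d) (Fin d) ℤ) ^ (m + 1)) with hx
  obtain ⟨h', -, φ, hφ, hlim⟩ := (isCompact_box (d := d) C).tendsto_subseq
    (x := x) (fun m => hC m _ _)
  refine ⟨fun n => a (φ n) (φ n + 1) (by omega), fun n => V (φ n) *
    (U : Matrix (Fin d) (Fin d) ℤ) ^ (φ n + 1), h', fun n => ha _ _ _, fun n => ?_, hlim,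
    fun i => ?_⟩
  · rw [det_mul, det_pow, abs_mul, abs_pow, units_det, hV, one_pow, one_mul]
  have h1 := ((continuous_rs (pw U i)).tendsto h').comp hlim
  refine le_of_tendsto h1 ?_
  filter_upwards [eventually_ge_atTop i.natAbs] with n hn
  have hn' : i.natAbs ≤ φ n := hn.trans hφ.le_apply
  set m := φ n with hm
  obtain ⟨j, hj⟩ : ∃ j : ℕ, (j : ℤ) = m + 1 + i := ⟨((m : ℤ) + 1 + i).toNat, by
    rw [Int.toNat_of_nonneg]; omega⟩
  have hj2 : j ≤ 2 * (m + 1) := by omega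
  have h2 : (V m * (U : Matrix (Fin d) (Fin d) ℤ) ^ (m + 1)) *
      ((U ^ i : (Matrix (Fin d) (Fin d) ℤ)ˣ) : Matrix (Fin d) (Fin d) ℤ) =
      V m * (U : Matrix (Fin d) (Fin d) ℤ) ^ j := by
    rw [Matrix.mul_assoc]
    congr 1
    have h3 : U ^ (m + 1) * U ^ i = U ^ j := by
      rw [← zpow_natCast U (m + 1), ← zpow_natCast U j, ← _root_.zpow_add, hj]
      push_cast
      rfl
    have h4 := congrArg (fun u : (Matrix (Fin d) (Fin d) ℤ)ˣ => (u : Matrix (Fin d) (Fin d) ℤ)) h3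
    simp only [Units.val_mul, Units.val_pow_eq_pow_val] at h4
    exact h4
  show ∏ r, rs (x m * pw U i) r ≤ _
  -- both products agree
  have hprod : ∀ (b : Fin d → ℝ), |∏ i, b i| = 1 → ∀ M : Matrix (Fin d) (Fin d) ℝ,
      ∏ r, rs (diagonal b * M) r = ∏ r, rs M r := by
    intro b hb M
    simp only [rs_diag]
    rw [Finset.prod_mul_distrib, ← Finset.abs_prod, hb, one_mul]
  have h5 : x m * pw U i = diagonal (a m (m + 1) (by omega)) *
      (g * zR (V m * (U : Matrix (Fin d) (Fin d) ℤ) ^ j)) := by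
    rw [hx, ← h2, zR_mul (V m * (U : Matrix (Fin d) (Fin d) ℤ) ^ (m + 1)), pw]
    simp only [Matrix.mul_assoc]
  rw [h5, hprod _ (ha m (m + 1) _), ← hprod _ (ha m j hj2)]
  have h3 : ∀ r, rs (diagonal (a m j hj2) *
      (g * zR (V m * (U : Matrix (Fin d) (Fin d) ℤ) ^ j))) r ≤ d * C := by
    intro r
    unfold rs
    calc ∑ k, |(diagonal (a m j hj2) * (g * zR (V m * (U : Matrix (Fin d) (Fin d) ℤ) ^ j))) r k|
        ≤ ∑ _k : Fin d, C := Finset.sum_le_sum fun k _ => by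
          rw [← Matrix.mul_assoc]; exact hC m j hj2 r k
      _ = d * C := by simp
  calc _ ≤ ∏ _r : Fin d, ((d : ℝ) * C) := Finset.prod_le_prod (fun r _ => rs_nonneg _ _) fun r _ => h3 r
    _ = (d * C) ^ d := by rw [Finset.prod_const, Finset.card_univ, Fintype.card_fin]

/-- the lower bound passes to the limit -/
lemma hasNu_limit {g h : Matrix (Fin d) (Fin d) ℝ} {ν : ℝ} (hnu : HasNu g ν)
    (a : ℕ → Fin d → ℝ) (γ : ℕ → Matrix (Fin d) (Fin d) ℤ)
    (ha : ∀ n, |∏ i, a n i| = 1) (hγ : ∀ n, |(γ n).det| = 1)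
    (hlim : Tendsto (fun n => diagonal (a n) * g * zR (γ n)) atTop (𝓝 h)) : HasNu h ν := by
  intro m hm
  have h1 := (((continuous_FF (iR m)).tendsto h).comp hlim).abs
  refine ge_of_tendsto h1 (Eventually.of_forall fun n => ?_)
  show ν ≤ |FF (diagonal (a n) * g * zR (γ n)) (iR m)|
  rw [Matrix.mul_assoc, FF_diag_mul, abs_mul, ha, one_mul, FF_mul, zR_mulVec_iR]
  refine hnu _ fun h0 => hm ?_
  have hu : IsUnit (γ n).det := Int.isUnit_iff_abs_eq.2 (hγ n)
  have h3 : (γ n)⁻¹ *ᵥ ((γ n) *ᵥ m) = 0 := by rw [h0, mulVec_zero]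
  rwa [mulVec_mulVec, Matrix.nonsing_inv_mul _ hu, one_mulVec] at h3

lemma det_limit {g h : Matrix (Fin d) (Fin d) ℝ} (hg : g.det ≠ 0)
    (a : ℕ → Fin d → ℝ) (γ : ℕ → Matrix (Fin d) (Fin d) ℤ)
    (ha : ∀ n, |∏ i, a n i| = 1) (hγ : ∀ n, |(γ n).det| = 1)
    (hlim : Tendsto (fun n => diagonal (a n) * g * zR (γ n)) atTop (𝓝 h)) : h.det ≠ 0 := by
  have h1 := ((continuous_det'.tendsto h).comp hlim).abs
  have h2 : ∀ n, |(diagonal (a n) * g * zR (γ n)).det| = |g.det| := by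
    intro n
    rw [det_mul, det_mul, det_diagonal, abs_mul, abs_mul, ha, one_mul, det_zR]
    have : |((γ n).det : ℝ)| = 1 := by exact_mod_cast hγ n
    rw [this, mul_one]
  have h3 : Tendsto (fun _ : ℕ => |g.det|) atTop (𝓝 |h.det|) := by
    refine h1.congr fun n => ?_
    exact h2 n
  have h4 := tendsto_nhds_unique h3 tendsto_const_nhds
  intro h0
  rw [h0, abs_zero] at h4
  exact hg (abs_eq_zero.1 h4.symm)

/-- determinants are bounded by products of row sums -/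
lemma det_le_rs {n : ℕ} (N : Matrix (Fin n) (Fin n) ℝ) :
    |N.det| ≤ n.factorial * ∏ r, rs N r := by
  rw [Matrix.det_apply]
  refine (Finset.abs_sum_le_sum_abs _ _).trans ?_
  have h1 : ∀ σ : Equiv.Perm (Fin n), |Equiv.Perm.sign σ • ∏ i, N (σ i) i| ≤ ∏ r, rs N r := by
    intro σ
    have h2 : |Equiv.Perm.sign σ • ∏ i, N (σ i) i| = ∏ i, |N (σ i) i| := by
      rcases Int.units_eq_one_or (Equiv.Perm.sign σ) with h | h
      · rw [h]; simp [Finset.abs_prod]
      · rw [h]; simp [Finset.abs_prod]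
    rw [h2]
    calc ∏ i, |N (σ i) i| ≤ ∏ i, rs N (σ i) :=
          Finset.prod_le_prod (fun _ _ => abs_nonneg _) fun i _ => abs_le_rs N (σ i) i
      _ = ∏ r, rs N r := Equiv.prod_comp σ (fun r => rs N r)
  calc _ ≤ ∑ _σ : Equiv.Perm (Fin n), ∏ r, rs N r := Finset.sum_le_sum fun σ _ => h1 σ
    _ = n.factorial * ∏ r, rs N r := by
        rw [Finset.sum_const, Finset.card_univ, Fintype.card_perm, Fintype.card_fin, nsmul_eq_mul]

/-- Cramer's rule: coefficients of a combination of the rows -/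
lemma cramer_le {n : ℕ} (N : Matrix (Fin n) (Fin n) ℝ) (v c : Fin n → ℝ)
    (hv : v = c ᵥ* N) (k : Fin n) :
    |c k| * |N.det| ≤ n.factorial * ((∑ l, |v l|) * ∏ r ∈ Finset.univ.erase k, rs N r) := by
  have h1 : (N.updateRow k v).det = c k * N.det := by
    have h2 : v = ∑ i, c i • N i := by
      rw [hv]
      funext j
      simp [vecMul, dotProduct, Finset.sum_apply]
    rw [h2, det_updateRow_sum, smul_eq_mul]
  rw [← abs_mul, ← h1]
  refine (det_le_rs _).trans ?_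
  refine mul_le_mul_of_nonneg_left (le_of_eq ?_) (by positivity)
  rw [← Finset.mul_prod_erase Finset.univ _ (Finset.mem_univ k)]
  congr 1
  · unfold rs
    simp
  · refine Finset.prod_congr rfl fun r hr => ?_
    unfold rs
    refine Finset.sum_congr rfl fun l _ => ?_
    rw [updateRow_ne (Finset.ne_of_mem_erase hr)]

end Pool.Agent.N759.WP
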