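import Mathlib
import Pool.Agent.N759.WP.Basic

/-! # Eigenvectors in an irreducible cyclic submodule -/

open Filter Topology Matrix Polynomial

namespace Pool.Agent.N759.WP

open H715R2

variable {d : ℕ}

/-- the rational matrix -/
def mQ (U : Matrix (Fin d) (Fin d) ℤ) : Matrix (Fin d) (Fin d) ℚ := U.map (Int.castRingHom ℚ)

/-- the complex matrix -/
noncomputable def mC (U : Matrix (Fin d) (Fin d) ℤ) : Matrix (Fin d) (Fin d) ℂ :=
  U.map (Int.castRingHom ℂ)

lemma mC_eq (U : Matrix (Fin d) (Fin d) ℤ) : mC U = (algebraMap ℚ ℂ).mapMatrix (mQ U) := by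
  ext i j
  simp [mC, mQ]

lemma aeval_mC (U : Matrix (Fin d) (Fin d) ℤ) (f : ℚ[X]) :
    aeval (mC U) (f.map (algebraMap ℚ ℂ)) = (algebraMap ℚ ℂ).mapMatrix (aeval (mQ U) f) := by
  induction f using Polynomial.induction_on' with
  | add p q hp hq => rw [Polynomial.map_add, map_add, map_add, map_add, hp, hq]
  | monomial n a =>
    rw [Polynomial.map_monomial, aeval_monomial, aeval_monomial, map_mul, map_pow, ← mC_eq]
    congr 1
    ext i j
    simp [Matrix.algebraMap_matrix_apply]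

lemma charpoly_mC (U : Matrix (Fin d) (Fin d) ℤ) :
    (mC U).charpoly = (mQ U).charpoly.map (algebraMap ℚ ℂ) := by
  rw [mC_eq, RingHom.mapMatrix_apply, charpoly_map]

lemma cast_mulVec (A : Matrix (Fin d) (Fin d) ℚ) (x : Fin d → ℚ) :
    ((algebraMap ℚ ℂ).mapMatrix A) *ᵥ (fun i => (x i : ℂ)) = fun i => ((A *ᵥ x) i : ℂ) := by
  funext i
  simp [mulVec, dotProduct]

/-- an irreducible factor of the characteristic polynomial and a vector annihilated by it -/
theorem exists_factor (hd : 0 < d) (U : Matrix (Fin d) (Fin d) ℤ) :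
    ∃ f : ℚ[X], f.Monic ∧ Irreducible f ∧ f ∣ (mQ U).charpoly ∧
      ∃ x : Fin d → ℤ, x ≠ 0 ∧ aeval (mQ U) f *ᵥ (fun i => (x i : ℚ)) = 0 := by
  classical
  have hdeg : (mQ U).charpoly.natDegree = d := by
    rw [charpoly_natDegree_eq_dim, Fintype.card_fin]
  obtain ⟨f, hmon, hirr, hdvd⟩ := exists_monic_irreducible_factor (mQ U).charpoly
    (not_isUnit_of_natDegree_pos _ (by rw [hdeg]; exact hd))
  refine ⟨f, hmon, hirr, hdvd, ?_⟩
  -- a complex root
  obtain ⟨z, hz⟩ := IsAlgClosed.exists_root (f.map (algebraMap ℚ ℂ)) (by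
    rw [degree_map]
    exact (degree_pos_of_irreducible hirr).ne')
  have hz2 : ((mC U).charpoly).eval z = 0 := by
    rw [charpoly_mC]
    obtain ⟨q, hq⟩ := hdvd
    rw [hq, Polynomial.map_mul, eval_mul, show (f.map (algebraMap ℚ ℂ)).eval z = 0 from hz, zero_mul]
  rw [eval_charpoly] at hz2
  obtain ⟨v, hv, hv0⟩ := exists_mulVec_eq_zero_iff.2 hz2
  have hev : mC U *ᵥ v = z • v := by
    rw [sub_mulVec, sub_eq_zero] at hv0
    rw [← hv0]
    funext i
    simp
  have hpow : ∀ n : ℕ, (mC U) ^ n *ᵥ v = z ^ n • v := by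
    intro n
    induction n with
    | zero => rw [pow_zero, pow_zero, one_mulVec, one_smul]
    | succ n ih => rw [pow_succ', ← mulVec_mulVec, ih, mulVec_smul, hev, smul_smul, pow_succ]
  have hae : ∀ p : ℂ[X], aeval (mC U) p *ᵥ v = p.eval z • v := by
    intro p
    induction p using Polynomial.induction_on' with
    | add p q hp hq => rw [map_add, add_mulVec, hp, hq, eval_add, add_smul]
    | monomial n a =>
      rw [aeval_monomial, eval_monomial, ← mulVec_mulVec, hpow, Algebra.algebraMap_eq_smul_one,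
        smul_mulVec, one_mulVec, smul_smul]
  have hdet : (aeval (mQ U) f).det = 0 := by
    have h1 : ((algebraMap ℚ ℂ).mapMatrix (aeval (mQ U) f)).det = 0 := by
      rw [← exists_mulVec_eq_zero_iff]
      refine ⟨v, hv, ?_⟩
      rw [← aeval_mC, hae, show (f.map (algebraMap ℚ ℂ)).eval z = 0 from hz, zero_smul]
    rw [← RingHom.map_det] at h1
    exact (map_eq_zero (algebraMap ℚ ℂ)).1 h1
  obtain ⟨w, hw, hw0⟩ := exists_mulVec_eq_zero_iff.2 hdet
  -- clear denominators
  set N : ℤ := ∏ i, ((w i).den : ℤ) with hN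
  have hN0 : N ≠ 0 := Finset.prod_ne_zero_iff.2 fun i _ => by
    exact_mod_cast (w i).den_nz
  have hint : ∀ i, ∃ y : ℤ, (y : ℚ) = N * w i := by
    intro i
    refine ⟨(∏ j ∈ Finset.univ.erase i, ((w j).den : ℤ)) * (w i).num, ?_⟩
    rw [hN, ← Finset.mul_prod_erase Finset.univ _ (Finset.mem_univ i)]
    have h1 : ((w i).den : ℚ) * w i = (w i).num := Rat.den_mul_eq_num (w i)
    push_cast
    linear_combination (-(∏ j ∈ Finset.univ.erase i, ((w j).den : ℚ))) * h1
  choose y hy using hint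
  refine ⟨y, ?_, ?_⟩
  · intro h0
    apply hw
    funext i
    have h1 := hy i
    rw [h0] at h1
    simp only [Pi.zero_apply, Int.cast_zero] at h1
    have h2 : (N : ℚ) ≠ 0 := by exact_mod_cast hN0
    rcases mul_eq_zero.1 h1.symm with h3 | h3
    · exact absurd h3 h2
    · exact h3
  · have h1 : (fun i => (y i : ℚ)) = (N : ℚ) • w := by
      funext i
      rw [hy i]; rfl
    rw [h1, mulVec_smul, hw0, smul_zero]

/-- an eigenvector not orthogonal to a given row -/
theorem exists_eigvec (U : Matrix (Fin d) (Fin d) ℤ) (f : ℚ[X]) (hmon : f.Monic)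
    (hirr : Irreducible f) (x : Fin d → ℤ)
    (hx : aeval (mQ U) f *ᵥ (fun i => (x i : ℚ)) = 0) (r : Fin d → ℝ)
    (hr : ∑ k, r k * (x k : ℝ) ≠ 0) :
    ∃ (z : ℂ) (y : Fin d → ℂ), mC U *ᵥ y = z • y ∧ ∑ k, (r k : ℂ) * y k ≠ 0 := by
  classical
  set F : ℂ[X] := f.map (algebraMap ℚ ℂ) with hF
  have hFmon : F.Monic := hmon.map _
  have hFsep : F.Separable := hirr.separable.map
  set s : Finset ℂ := F.roots.toFinset with hs
  have hnodup : F.roots.Nodup := nodup_roots hFsep
  have hprod : F = ∏ a ∈ s, (X - C a) := by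
    have h1 := (IsAlgClosed.splits F).eq_prod_roots_of_monic hFmon
    have h2 : ∏ a ∈ s, (X - C a) = (F.roots.map (fun a => X - C a)).prod := by
      rw [hs, Finset.prod, Multiset.toFinset_val, Multiset.dedup_eq_self.2 hnodup]
    rw [h2]
    exact h1
  have hne : s.Nonempty := by
    obtain ⟨z, hz⟩ := IsAlgClosed.exists_root F (by
      rw [hF, degree_map]
      exact (degree_pos_of_irreducible hirr).ne')
    refine ⟨z, ?_⟩
    rw [hs, Multiset.mem_toFinset, mem_roots hFmon.ne_zero]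
    exact hz
  set xC : Fin d → ℂ := fun i => (x i : ℂ) with hxC
  have hFx : aeval (mC U) F *ᵥ xC = 0 := by
    rw [hF, aeval_mC]
    have h1 : xC = fun i => (((x i : ℤ) : ℚ) : ℂ) := by funext i; simp [hxC]
    rw [h1, cast_mulVec _ (fun i => (x i : ℚ)), hx]
    funext i
    simp
  have hinj : Set.InjOn (id : ℂ → ℂ) (s : Set ℂ) := Function.injective_id.injOn
  have hsum := Lagrange.sum_basis hinj hne
  set Y : ℂ → (Fin d → ℂ) := fun a => aeval (mC U) (Lagrange.basis s id a) *ᵥ xC with hY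
  have hYsum : ∑ a ∈ s, Y a = xC := by
    have h1 : ∑ a ∈ s, Y a = (aeval (mC U) (∑ a ∈ s, Lagrange.basis s id a)) *ᵥ xC := by
      rw [map_sum, Matrix.sum_mulVec]
    rw [h1, hsum, map_one, one_mulVec]
  have hrx : ∑ k, (r k : ℂ) * xC k ≠ 0 := by
    have h1 : ∑ k, (r k : ℂ) * xC k = ((∑ k, r k * (x k : ℝ) : ℝ) : ℂ) := by
      push_cast; rfl
    rw [h1]
    exact_mod_cast hr
  obtain ⟨a, ha, ha2⟩ : ∃ a ∈ s, ∑ k, (r k : ℂ) * Y a k ≠ 0 := by
    by_contra hcon
    push Not at hcon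
    apply hrx
    rw [← hYsum]
    simp only [Finset.sum_apply, Finset.mul_sum]
    rw [Finset.sum_comm]
    exact Finset.sum_eq_zero fun a ha => hcon a ha
  refine ⟨a, Y a, ?_, ha2⟩
  have h1 : (X - C a) * Lagrange.basis s id a
      = C (∏ b ∈ s.erase a, (a - b)⁻¹) * F := by
    rw [hprod, Lagrange.basis, ← Finset.mul_prod_erase s _ ha]
    simp only [Lagrange.basisDivisor, id, Finset.prod_mul_distrib, map_prod]
    ring
  have h2 : mC U *ᵥ Y a - a • Y a = aeval (mC U) ((X - C a) * Lagrange.basis s id a) *ᵥ xC := by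
    rw [map_mul, map_sub, aeval_X, aeval_C, ← mulVec_mulVec, sub_mulVec,
      Algebra.algebraMap_eq_smul_one, smul_mulVec, one_mulVec]
  rw [h1, map_mul, ← mulVec_mulVec, hFx, mulVec_zero] at h2
  exact sub_eq_zero.1 h2

end Pool.Agent.N759.WP
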