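import Mathlib
import Pool.Agent.N759.WP.Eigen

/-! # Exponential growth rates of the rows -/

open Filter Topology Matrix Polynomial

namespace Pool.Agent.N759.WP

open H715R2

variable {d : ℕ}

lemma mC_mul (A B : Matrix (Fin d) (Fin d) ℤ) : mC (A * B) = mC A * mC B := by
  have := (Int.castRingHom ℂ).mapMatrix.map_mul A B
  simpa [mC] using this

lemma mC_one : mC (1 : Matrix (Fin d) (Fin d) ℤ) = 1 := by simp [mC]

lemma mulVec_zpow (U : (Matrix (Fin d) (Fin d) ℤ)ˣ) (y : Fin d → ℂ) (z : ℂ) (hz : z ≠ 0)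
    (h : mC (U : Matrix (Fin d) (Fin d) ℤ) *ᵥ y = z • y) (i : ℤ) :
    mC ((U ^ i : (Matrix (Fin d) (Fin d) ℤ)ˣ) : Matrix (Fin d) (Fin d) ℤ) *ᵥ y = z ^ i • y := by
  have hinv : mC ((U⁻¹ : (Matrix (Fin d) (Fin d) ℤ)ˣ) : Matrix (Fin d) (Fin d) ℤ) *ᵥ y =
      z⁻¹ • y := by
    have h1 : mC ((U⁻¹ * U : (Matrix (Fin d) (Fin d) ℤ)ˣ) : Matrix (Fin d) (Fin d) ℤ) *ᵥ y = y := by
      rw [inv_mul_cancel, Units.val_one, mC_one, one_mulVec]
    rw [Units.val_mul, mC_mul, ← mulVec_mulVec, h, mulVec_smul] at h1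
    rw [eq_inv_smul_iff₀ hz]
    exact h1
  induction i using Int.induction_on with
  | zero => rw [_root_.zpow_zero, Units.val_one, mC_one, one_mulVec, _root_.zpow_zero, one_smul]
  | succ i ih =>
    rw [_root_.zpow_add_one, Units.val_mul, mC_mul, ← mulVec_mulVec, h, mulVec_smul, ih, smul_smul,
      zpow_add_one₀ hz, mul_comm]
  | pred i ih =>
    rw [_root_.zpow_sub_one, Units.val_mul, mC_mul, ← mulVec_mulVec, hinv, mulVec_smul, ih,
      smul_smul, zpow_sub_one₀ hz, mul_comm]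

theorem exists_rho (hd : 0 < d) (U : (Matrix (Fin d) (Fin d) ℤ)ˣ) (h : Matrix (Fin d) (Fin d) ℝ)
    (B : ℝ) (hB : ∀ i : ℤ, ∏ r, rs (h * pw U i) r ≤ B)
    (hne : ∀ x : Fin d → ℤ, x ≠ 0 → ∀ i, ∑ k, h i k * (x k : ℝ) ≠ 0) :
    ∃ ρ : Fin d → ℝ, (∀ i, 0 < ρ i) ∧ ∏ i, ρ i = 1 ∧ ∃ C : ℝ, 0 < C ∧
      ∀ (j : ℤ) (i : Fin d), rs (h * pw U j) i ≤ C * ρ i ^ j := by
  classical
  obtain ⟨f, hmon, hirr, -, x, hx, hfx⟩ := exists_factor hd (U : Matrix (Fin d) (Fin d) ℤ)
  choose z y hzy hry using fun i => exists_eigvec (U : Matrix (Fin d) (Fin d) ℤ) f hmon hirr x hfx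
    (h i) (hne x hx i)
  have hz0 : ∀ i, z i ≠ 0 := by
    intro i h0
    apply hry i
    have h1 : mC ((U⁻¹ * U : (Matrix (Fin d) (Fin d) ℤ)ˣ) : Matrix (Fin d) (Fin d) ℤ) *ᵥ y i = y i := by
      rw [inv_mul_cancel, Units.val_one, mC_one, one_mulVec]
    rw [Units.val_mul, mC_mul, ← mulVec_mulVec, hzy, h0, zero_smul, mulVec_zero] at h1
    rw [← h1]
    simp
  set Y : Fin d → ℝ := fun i => ∑ k, ‖y i k‖ with hY
  set c : Fin d → ℝ := fun i => ‖∑ k, (h i k : ℂ) * y i k‖ / Y i with hc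
  have hYpos : ∀ i, 0 < Y i := by
    intro i
    by_contra hcon
    have h1 : Y i = 0 := le_antisymm (not_lt.1 hcon) (Finset.sum_nonneg fun _ _ => norm_nonneg _)
    apply hry i
    refine Finset.sum_eq_zero fun k _ => ?_
    have h2 := (Finset.sum_eq_zero_iff_of_nonneg (fun k _ => norm_nonneg (y i k))).1 h1 k
      (Finset.mem_univ k)
    rw [norm_eq_zero.1 h2, mul_zero]
  have hc0 : ∀ i, 0 < c i := fun i => div_pos (norm_pos_iff.2 (hry i)) (hYpos i)
  have hm0 : ∀ i, 0 < ‖z i‖ := fun i => norm_pos_iff.2 (hz0 i)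
  -- lower bound
  have hlow : ∀ (j : ℤ) (i : Fin d), c i * ‖z i‖ ^ j ≤ rs (h * pw U j) i := by
    intro j i
    have h1 : ∑ k, (((h * pw U j) i k : ℝ) : ℂ) * y i k = z i ^ j * ∑ k, (h i k : ℂ) * y i k := by
      have h2 := mulVec_zpow U (y i) (z i) (hz0 i) (hzy i) j
      have h3 : ∀ l, ∑ k, mC ((U ^ j : (Matrix (Fin d) (Fin d) ℤ)ˣ) : Matrix (Fin d) (Fin d) ℤ) l k
          * y i k = z i ^ j * y i l := fun l => congrFun h2 l
      calc ∑ k, (((h * pw U j) i k : ℝ) : ℂ) * y i k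
          = ∑ k, ∑ l, (h i l : ℂ) * (mC ((U ^ j : (Matrix (Fin d) (Fin d) ℤ)ˣ) :
              Matrix (Fin d) (Fin d) ℤ) l k * y i k) := by
            refine Finset.sum_congr rfl fun k _ => ?_
            rw [Matrix.mul_apply, Complex.ofReal_sum, Finset.sum_mul]
            refine Finset.sum_congr rfl fun l _ => ?_
            simp only [pw, zR, mC, Matrix.map_apply, Complex.ofReal_mul, Complex.ofReal_intCast,
              Int.coe_castRingHom]
            ring
        _ = ∑ l, (h i l : ℂ) * (z i ^ j * y i l) := by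
            rw [Finset.sum_comm]
            refine Finset.sum_congr rfl fun l _ => ?_
            rw [← Finset.mul_sum, h3]
        _ = _ := by
            rw [Finset.mul_sum]
            exact Finset.sum_congr rfl fun l _ => by ring
    rw [hc]
    simp only
    rw [div_mul_eq_mul_div, div_le_iff₀ (hYpos i), ← norm_zpow, mul_comm ‖∑ k, _‖, ← norm_mul, ← h1]
    refine (norm_sum_le _ _).trans ?_
    rw [hY]
    simp only
    rw [Finset.mul_sum]
    refine Finset.sum_le_sum fun k _ => ?_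
    rw [norm_mul, Complex.norm_real, Real.norm_eq_abs]
    exact mul_le_mul_of_nonneg_right (abs_le_rs _ _ _) (norm_nonneg _)
  have hprod : ∏ i, ‖z i‖ = 1 := by
    have hcp : 0 < ∏ i, c i := Finset.prod_pos fun i _ => hc0 i
    refine zpow_unbounded (C := B / ∏ i, c i) (Finset.prod_pos fun i _ => hm0 i) fun j => ?_
    rw [le_div_iff₀ hcp, ← Finset.prod_zpow, ← Finset.prod_mul_distrib]
    refine le_trans ?_ (hB j)
    refine Finset.prod_le_prod (fun i _ => mul_nonneg (zpow_nonneg (hm0 i).le _) (hc0 i).le)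
      fun i _ => ?_
    rw [mul_comm]
    exact hlow j i
  refine ⟨fun i => ‖z i‖, hm0, hprod, ?_⟩
  have hup : ∀ i, ∃ C : ℝ, ∀ j : ℤ, rs (h * pw U j) i ≤ C * ‖z i‖ ^ j := by
    intro i
    refine ⟨B / ∏ t ∈ Finset.univ.erase i, c t, fun j => ?_⟩
    have hBi : rs (h * pw U j) i * ∏ t ∈ Finset.univ.erase i, rs (h * pw U j) t ≤ B := by
      rw [Finset.mul_prod_erase Finset.univ (fun t => rs (h * pw U j) t) (Finset.mem_univ i)]
      exact hB j
    have h1 : ∏ t ∈ Finset.univ.erase i, (c t * ‖z t‖ ^ j) ≤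
        ∏ t ∈ Finset.univ.erase i, rs (h * pw U j) t :=
      Finset.prod_le_prod (fun t _ => mul_nonneg (hc0 t).le (zpow_nonneg (hm0 t).le _))
        fun t _ => hlow j t
    rw [Finset.prod_mul_distrib, Finset.prod_zpow] at h1
    have h2 : (∏ t ∈ Finset.univ.erase i, ‖z t‖) = ‖z i‖⁻¹ := by
      have h3 := Finset.mul_prod_erase Finset.univ (fun t => ‖z t‖) (Finset.mem_univ i)
      rw [hprod] at h3
      exact eq_inv_of_mul_eq_one_right h3
    rw [h2, _root_.inv_zpow] at h1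
    have hcp : 0 < ∏ t ∈ Finset.univ.erase i, c t := Finset.prod_pos fun t _ => hc0 t
    have hmi : 0 < ‖z i‖ ^ j := zpow_pos (hm0 i) j
    have h4 : rs (h * pw U j) i * ((∏ t ∈ Finset.univ.erase i, c t) * (‖z i‖ ^ j)⁻¹) ≤ B :=
      (mul_le_mul_of_nonneg_left h1 (rs_nonneg _ _)).trans hBi
    rw [div_mul_eq_mul_div, le_div_iff₀ hcp]
    have h5 : rs (h * pw U j) i * ((∏ t ∈ Finset.univ.erase i, c t) * (‖z i‖ ^ j)⁻¹) * ‖z i‖ ^ j ≤
        B * ‖z i‖ ^ j := mul_le_mul_of_nonneg_right h4 hmi.le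
    have h6 : rs (h * pw U j) i * ((∏ t ∈ Finset.univ.erase i, c t) * (‖z i‖ ^ j)⁻¹) * ‖z i‖ ^ j =
        rs (h * pw U j) i * ∏ t ∈ Finset.univ.erase i, c t := by
      field_simp
    rwa [h6] at h5
  choose C hC using hup
  refine ⟨∑ i, |C i| + 1, by positivity, fun j i => ?_⟩
  refine (hC i j).trans ?_
  have hmi : 0 < ‖z i‖ ^ j := zpow_pos (hm0 i) j
  refine mul_le_mul_of_nonneg_right ?_ hmi.le
  have h1 := Finset.single_le_sum (f := fun i => |C i|) (fun i _ => abs_nonneg _) (Finset.mem_univ i)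
  have h2 := le_abs_self (C i)
  linarith

/-- **Block structure.** -/
theorem block_structure (U : (Matrix (Fin d) (Fin d) ℤ)ˣ) (h : Matrix (Fin d) (Fin d) ℝ)
    (hdet : h.det ≠ 0) (ρ : Fin d → ℝ) (hρ : ∀ i, 0 < ρ i) (hρ1 : ∏ i, ρ i = 1) (C : ℝ)
    (hC0 : 0 < C) (hC : ∀ (j : ℤ) (i : Fin d), rs (h * pw U j) i ≤ C * ρ i ^ j)
    (M : Matrix (Fin d) (Fin d) ℝ) (hM : h * pw U 1 = M * h) (i k : Fin d) (hik : ρ k ≠ ρ i) :
    M i k = 0 := by
  classical
  by_contra hne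
  apply hik
  have hd0 : 0 < |h.det| := abs_pos.2 hdet
  -- the inequality
  have hmain : ∀ j : ℤ, |M i k| * |h.det| ≤ d.factorial * (C ^ d * ρ i) * (ρ i / ρ k) ^ j := by
    intro j
    have h1 : (h * pw U (j + 1)) i = M i ᵥ* (h * pw U j) := by
      have h2 : h * pw U (j + 1) = M * (h * pw U j) := by
        rw [add_comm, pw_add, ← Matrix.mul_assoc, hM, Matrix.mul_assoc]
      rw [h2]
      rfl
    have h2 := cramer_le (h * pw U j) _ _ h1 k
    have h3 : |(h * pw U j).det| = |h.det| := by rw [det_mul, abs_mul, pw_det, mul_one]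
    rw [h3] at h2
    refine h2.trans ?_
    have h4 : (∑ l, |(h * pw U (j + 1)) i l|) ≤ C * ρ i ^ (j + 1) := hC (j + 1) i
    have h5 : ∏ r ∈ Finset.univ.erase k, rs (h * pw U j) r
        ≤ ∏ r ∈ Finset.univ.erase k, (C * ρ r ^ j) :=
      Finset.prod_le_prod (fun r _ => rs_nonneg _ _) fun r _ => hC j r
    have h6 : ∏ r ∈ Finset.univ.erase k, (C * ρ r ^ j) = C ^ (d - 1) * (ρ k ^ j)⁻¹ := by
      rw [Finset.prod_mul_distrib, Finset.prod_const, Finset.card_erase_of_mem (Finset.mem_univ _),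
        Finset.card_univ, Fintype.card_fin, Finset.prod_zpow]
      congr 1
      have h7 := Finset.mul_prod_erase Finset.univ ρ (Finset.mem_univ k)
      rw [hρ1] at h7
      rw [eq_inv_of_mul_eq_one_right h7, _root_.inv_zpow]
    rw [h6] at h5
    have hd : 0 < d := lt_of_le_of_lt (Nat.zero_le _) i.2
    calc (d.factorial : ℝ) * ((∑ l, |(h * pw U (j + 1)) i l|)
          * ∏ r ∈ Finset.univ.erase k, rs (h * pw U j) r)
        ≤ d.factorial * ((C * ρ i ^ (j + 1)) * (C ^ (d - 1) * (ρ k ^ j)⁻¹)) := by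
          refine mul_le_mul_of_nonneg_left ?_ (by positivity)
          refine mul_le_mul h4 h5 (Finset.prod_nonneg fun _ _ => rs_nonneg _ _) ?_
          exact mul_nonneg hC0.le (zpow_nonneg (hρ i).le _)
      _ = d.factorial * (C ^ d * ρ i) * (ρ i / ρ k) ^ j := by
          rw [div_zpow, zpow_add_one₀ (hρ i).ne']
          have h8 : C ^ d = C * C ^ (d - 1) := by
            rw [← pow_succ']; congr 1; omega
          rw [h8]
          field_simp
  have hq : (ρ k / ρ i) = 1 := by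
    refine zpow_unbounded (C := d.factorial * (C ^ d * ρ i) / (|M i k| * |h.det|))
      (div_pos (hρ k) (hρ i)) fun j => ?_
    have h0 : 0 < |M i k| * |h.det| := mul_pos (abs_pos.2 hne) hd0
    rw [le_div_iff₀ h0]
    have h1 := hmain j
    have h2 : (ρ i / ρ k) ^ j = ((ρ k / ρ i) ^ j)⁻¹ := by
      rw [← _root_.inv_zpow, inv_div]
    rw [h2] at h1
    have h3 : 0 < (ρ k / ρ i) ^ j := zpow_pos (div_pos (hρ k) (hρ i)) j
    rw [← div_eq_mul_inv, le_div_iff₀ h3] at h1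
    linarith
  exact (div_eq_one_iff_eq (hρ i).ne').1 hq

end Pool.Agent.N759.WP
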