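import Mathlib
import Pool.Agent.H715R2.Mink
import Pool.Agent.N759.WP.Rho

/-! # Invariant sublattices -/

open Filter Topology Matrix Polynomial

namespace Pool.Agent.N759.WP

open H715R2

variable {d : ℕ}

/-- a matrix with trivial kernel has a nonsingular square submatrix -/
theorem exists_minor {n : ℕ} (R : Matrix (Fin d) (Fin n) ℝ) (hR : ∀ m : Fin n → ℝ, R *ᵥ m = 0 → m = 0) :
    ∃ J : Fin n → Fin d, (R.submatrix J id).det ≠ 0 := by
  classical
  obtain ⟨κ, a, ha, hspan, hli⟩ := exists_linearIndependent' ℝ (fun i => R i)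
  -- the rows span
  have htop : Submodule.span ℝ (Set.range fun i => R i) = ⊤ := by
    by_contra hne
    obtain ⟨φ, hφ, hφ0⟩ := Submodule.exists_le_ker_of_lt_top _ (lt_top_iff_ne_top.2 hne)
    apply hφ
    have h1 : (fun l => φ (Pi.single l 1)) = (0 : Fin n → ℝ) := by
      apply hR
      funext i
      have h2 : φ (R i) = 0 := by
        have := hφ0 (Submodule.subset_span ⟨i, rfl⟩)
        exact this
      have h3 : R i = ∑ l, R i l • (Pi.single l (1 : ℝ) : Fin n → ℝ) := by
        funext k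
        simp [Finset.sum_apply, Pi.single_apply]
      rw [h3, map_sum] at h2
      simp only [map_smul, smul_eq_mul] at h2
      exact h2
    refine LinearMap.pi_ext' fun l => ?_
    refine LinearMap.ext_ring ?_
    have := congrFun h1 l
    simpa using this
  rw [htop] at hspan
  have hfin : Finite κ := hli.finite
  have := Fintype.ofFinite κ
  have hcard : Fintype.card κ = n := by
    have h1 := finrank_span_eq_card hli
    have h2 : Module.finrank ℝ (Submodule.span ℝ (Set.range ((fun i => R i) ∘ a))) = n := by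
      rw [hspan, finrank_top, Module.finrank_fin_fun]
    rw [← h1, h2]
  let e : Fin n ≃ κ := (Fintype.equivFinOfCardEq hcard).symm
  refine ⟨a ∘ e, ?_⟩
  have h1 : LinearIndependent ℝ (fun s => (R.submatrix (a ∘ e) id) s) := hli.comp e e.injective
  have h2 := Matrix.linearIndependent_rows_iff_isUnit.1 h1
  exact ((Matrix.isUnit_iff_isUnit_det _).1 h2).ne_zero

/-- columns of an integer matrix independent over `ℤ` are independent over `ℝ` -/
lemma int_inj {n : ℕ} (P : Matrix (Fin d) (Fin n) ℤ) (hP : ∀ m : Fin n → ℤ, P *ᵥ m = 0 → m = 0)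
    (m : Fin n → ℝ) (hm : P.map (Int.cast : ℤ → ℝ) *ᵥ m = 0) : m = 0 := by
  have h1 : (Pᵀ * P).det ≠ 0 := by
    intro h0
    obtain ⟨w, hw, hw0⟩ := exists_mulVec_eq_zero_iff.2 h0
    apply hw
    apply hP
    rw [← mulVec_mulVec] at hw0
    have h2 : (P *ᵥ w) ⬝ᵥ (P *ᵥ w) = 0 := by
      rw [dotProduct_mulVec, vecMul_mulVec] at *
      have : w ᵥ* (Pᵀ * P) = 0 := by
        have h3 := congrArg (fun v => v) hw0
        rw [← mulVec_transpose, transpose_mul, transpose_transpose, ← mulVec_mulVec]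
        exact hw0
      rw [this, zero_dotProduct]
    exact dotProduct_self_eq_zero.1 h2
  have h2 : ((Pᵀ * P).map (Int.cast : ℤ → ℝ)).det ≠ 0 := by
    have h3 := (Int.castRingHom ℝ).map_det (Pᵀ * P)
    rw [RingHom.mapMatrix_apply] at h3
    have h4 : ((Pᵀ * P).map (Int.cast : ℤ → ℝ)).det = (((Pᵀ * P).det : ℤ) : ℝ) := h3.symm
    rw [h4]
    exact_mod_cast h1
  by_contra hne
  apply h2
  rw [← exists_mulVec_eq_zero_iff]
  refine ⟨m, hne, ?_⟩
  have h3 : (Pᵀ * P).map (Int.cast : ℤ → ℝ)
      = (P.map (Int.cast : ℤ → ℝ))ᵀ * P.map (Int.cast : ℤ → ℝ) := by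
    ext i j
    simp [Matrix.mul_apply]
  rw [h3, ← mulVec_mulVec, hm, mulVec_zero]

/-- the cyclic lattice of a vector annihilated by an irreducible polynomial -/
theorem cyclic_lattice (U : (Matrix (Fin d) (Fin d) ℤ)ˣ) (f : ℚ[X]) (hmon : f.Monic)
    (hirr : Irreducible f) (x : Fin d → ℤ) (hx : x ≠ 0)
    (hfx : aeval (mQ (U : Matrix (Fin d) (Fin d) ℤ)) f *ᵥ (fun i => (x i : ℚ)) = 0) :
    ∃ P : Matrix (Fin d) (Fin f.natDegree) ℤ, (∀ m : Fin f.natDegree → ℤ, P *ᵥ m = 0 → m = 0) ∧
      ∃ W : Matrix (Fin f.natDegree) (Fin f.natDegree) ℝ,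
        zR (U : Matrix (Fin d) (Fin d) ℤ) * P.map (Int.cast : ℤ → ℝ) = P.map (Int.cast : ℤ → ℝ) * W := by
  classical
  set A : Matrix (Fin d) (Fin d) ℤ := (U : Matrix (Fin d) (Fin d) ℤ) with hA
  set n := f.natDegree with hn
  have hn0 : 0 < n := hirr.natDegree_pos
  set P : Matrix (Fin d) (Fin n) ℤ := Matrix.of fun k s => ((A ^ (s : ℕ)) *ᵥ x) k with hP
  have hcast : ∀ s : ℕ, (mQ A) ^ s *ᵥ (fun i => (x i : ℚ)) = fun k => (((A ^ s *ᵥ x) k : ℤ) : ℚ) := by
    intro s
    have h1 : (mQ A) ^ s = mQ (A ^ s) := by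
      have := (Int.castRingHom ℚ).mapMatrix.map_pow A s
      simpa [mQ] using this.symm
    rw [h1]
    funext k
    simp [mQ, mulVec, dotProduct]
  refine ⟨P, ?_, ?_⟩
  · intro m hm
    by_contra hne
    set p : ℚ[X] := ∑ s : Fin n, C ((m s : ℤ) : ℚ) * X ^ (s : ℕ) with hp
    have hcoef : ∀ s : Fin n, p.coeff s = m s := by
      intro s
      rw [hp, finsetSum_coeff]
      simp only [coeff_C_mul, coeff_X_pow]
      rw [Finset.sum_eq_single s]
      · simp
      · intro b _ hb
        rw [if_neg (by intro h; exact hb (Fin.ext h.symm)), mul_zero]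
      · intro h; exact absurd (Finset.mem_univ _) h
    have hp0 : p ≠ 0 := by
      intro h0
      apply hne
      funext s
      have h1 := hcoef s
      rw [h0, coeff_zero] at h1
      exact_mod_cast h1.symm
    have hpdeg : p.natDegree < n := by
      refine lt_of_le_of_lt (natDegree_sum_le_of_forall_le (n := n - 1) _ _ fun s _ => ?_) (by omega)
      refine (natDegree_C_mul_X_pow_le _ _).trans ?_
      omega
    have hcop : IsCoprime f p := by
      rw [hirr.coprime_iff_not_dvd]
      intro hdvd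
      have := natDegree_le_of_dvd hdvd hp0
      omega
    obtain ⟨u, w, huw⟩ := hcop
    have hpx : aeval (mQ A) p *ᵥ (fun i => (x i : ℚ)) = 0 := by
      rw [hp, map_sum, Matrix.sum_mulVec]
      simp only [map_mul, aeval_C, map_pow, aeval_X, Algebra.algebraMap_eq_smul_one,
        smul_mul_assoc, one_mul, smul_mulVec, hcast]
      funext k
      have h1 := congrFun hm k
      simp only [hP, mulVec, dotProduct, Matrix.of_apply, Pi.zero_apply] at h1
      simp only [Finset.sum_apply, Pi.smul_apply, smul_eq_mul, Pi.zero_apply, mulVec, dotProduct]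
      have h2 := congrArg (fun z : ℤ => (z : ℚ)) h1
      push_cast at h2 ⊢
      rw [← h2]
      exact Finset.sum_congr rfl fun s _ => mul_comm _ _
    have h1 := congrArg (fun q : ℚ[X] => aeval (mQ A) q *ᵥ (fun i => (x i : ℚ))) huw
    simp only [map_add, map_mul, map_one, add_mulVec, one_mulVec, ← mulVec_mulVec] at h1
    rw [hfx, hpx, mulVec_zero, mulVec_zero, add_zero] at h1
    apply hx
    funext i
    have h2 := congrFun h1 i
    simp only [Pi.zero_apply] at h2
    exact_mod_cast h2.symm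
  · -- the matrix of the restriction
    have hcol : ∀ s : Fin n, ∃ c : Fin n → ℝ, ∀ k,
        (zR A * P.map (Int.cast : ℤ → ℝ)) k s = (P.map (Int.cast : ℤ → ℝ) *ᵥ c) k := by
      intro s
      have hAP : ∀ k, (zR A * P.map (Int.cast : ℤ → ℝ)) k s = (((A ^ ((s : ℕ) + 1) *ᵥ x) k : ℤ) : ℝ) := by
        intro k
        rw [pow_succ', ← mulVec_mulVec]
        simp only [Matrix.mul_apply, zR, Matrix.map_apply, hP, Matrix.of_apply, mulVec, dotProduct]
        push_cast
        rfl
      by_cases hs : (s : ℕ) + 1 < n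
      · refine ⟨Pi.single ⟨(s : ℕ) + 1, hs⟩ 1, fun k => ?_⟩
        rw [hAP, mulVec_single_one]
        simp [hP]
      · have hs' : (s : ℕ) + 1 = n := by omega
        refine ⟨fun l => -((f.coeff l : ℚ) : ℝ), fun k => ?_⟩
        rw [hAP, hs']
        have h1 := congrFun hfx k
        rw [aeval_eq_sum_range, Matrix.sum_mulVec, Finset.sum_range_succ] at h1
        simp only [smul_mulVec, hcast, Pi.add_apply, Finset.sum_apply, Pi.smul_apply, smul_eq_mul,
          Pi.zero_apply] at h1
        rw [← hn, show f.coeff n = 1 from hmon.coeff_natDegree, one_mul] at h1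
        have h2 := congrArg (fun z : ℚ => (z : ℝ)) h1
        push_cast at h2
        have h3 : (P.map (Int.cast : ℤ → ℝ) *ᵥ fun l : Fin n => -((f.coeff l : ℚ) : ℝ)) k
            = - ∑ l ∈ Finset.range n, ((f.coeff l : ℚ) : ℝ) * (((A ^ l *ᵥ x) k : ℤ) : ℝ) := by
          rw [Finset.sum_range]
          simp only [mulVec, dotProduct, Matrix.map_apply, hP, Matrix.of_apply, mul_neg,
            Finset.sum_neg_distrib]
          congr 1
          exact Finset.sum_congr rfl fun l _ => mul_comm _ _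
        rw [h3]
        have h4 : ∀ l : ℕ, ((((A ^ l *ᵥ x) k : ℤ) : ℚ) : ℝ) = (((A ^ l *ᵥ x) k : ℤ) : ℝ) := by
          intro l; push_cast; rfl
        linarith
    choose c hc using hcol
    refine ⟨Matrix.of fun l s => c s l, ?_⟩
    ext k s
    rw [hc]
    rfl

end Pool.Agent.N759.WP
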