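import Mathlib
import Pool.Agent.N759.WP.Sub

/-! # The number of rows of a given rate and invariant sublattices -/

open Filter Topology Matrix Polynomial

namespace Pool.Agent.N759.WP

open H715R2

variable {d : ℕ}

lemma rs_mul_le {n : ℕ} (A : Matrix (Fin d) (Fin d) ℝ) (P : Matrix (Fin d) (Fin n) ℝ) (i : Fin d) :
    rs (A * P) i ≤ rs A i * ∑ k, ∑ l, |P k l| := by
  unfold rs
  calc ∑ l, |(A * P) i l| ≤ ∑ l, ∑ k, |A i k| * |P k l| := by
        refine Finset.sum_le_sum fun l _ => ?_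
        rw [Matrix.mul_apply]
        refine (Finset.abs_sum_le_sum_abs _ _).trans (le_of_eq ?_)
        exact Finset.sum_congr rfl fun k _ => abs_mul _ _
    _ = ∑ k, |A i k| * ∑ l, |P k l| := by
        rw [Finset.sum_comm]
        exact Finset.sum_congr rfl fun k _ => by rw [Finset.mul_sum]
    _ ≤ ∑ k, |A i k| * ∑ k, ∑ l, |P k l| := by
        refine Finset.sum_le_sum fun k _ => ?_
        refine mul_le_mul_of_nonneg_left ?_ (abs_nonneg _)
        exact Finset.single_le_sum (f := fun k => ∑ l, |P k l|)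
          (fun k _ => Finset.sum_nonneg fun l _ => abs_nonneg _) (Finset.mem_univ k)
    _ = _ := by rw [Finset.sum_mul]

/-- the relation between the numbers of rows -/
theorem sub_card (U : (Matrix (Fin d) (Fin d) ℤ)ˣ) (h : Matrix (Fin d) (Fin d) ℝ)
    (hdet : h.det ≠ 0) {ν : ℝ} (hν : 0 < ν) (hnu : HasNu h ν)
    (ρ : Fin d → ℝ) (hρ : ∀ i, 0 < ρ i) (C : ℝ)
    (hC0 : 0 < C) (hC : ∀ (j : ℤ) (i : Fin d), rs (h * pw U j) i ≤ C * ρ i ^ j)
    {n : ℕ} (hn : 0 < n) (P : Matrix (Fin d) (Fin n) ℤ)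
    (hP : ∀ m : Fin n → ℤ, P *ᵥ m = 0 → m = 0) (W : Matrix (Fin n) (Fin n) ℝ)
    (hW : zR (U : Matrix (Fin d) (Fin d) ℤ) * P.map (Int.cast : ℤ → ℝ)
      = P.map (Int.cast : ℤ → ℝ) * W) (ρ₀ : ℝ) :
    ∃ a : ℕ, (Finset.univ.filter fun i => ρ i = ρ₀).card * n = d * a := by
  classical
  set PR : Matrix (Fin d) (Fin n) ℝ := P.map (Int.cast : ℤ → ℝ) with hPR
  have hinj : ∀ m : Fin n → ℝ, PR *ᵥ m = 0 → m = 0 := int_inj P hP
  have hhu : IsUnit h.det := isUnit_iff_ne_zero.2 hdet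
  have hinj2 : ∀ m : Fin n → ℝ, (h * PR) *ᵥ m = 0 → m = 0 := by
    intro m hm
    apply hinj
    rw [← mulVec_mulVec] at hm
    have h1 := congrArg (fun v => h⁻¹ *ᵥ v) hm
    simp only [mulVec_mulVec, mulVec_zero] at h1
    rwa [← Matrix.mul_assoc, Matrix.nonsing_inv_mul _ hhu, Matrix.one_mul] at h1
  obtain ⟨J, hJ⟩ := exists_minor (h * PR) hinj2
  -- `W` is invertible
  have hWdet : W.det ≠ 0 := by
    intro h0
    obtain ⟨w, hw, hw0⟩ := exists_mulVec_eq_zero_iff.2 h0
    apply hw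
    apply hinj
    have h1 : zR (U : Matrix (Fin d) (Fin d) ℤ) *ᵥ (PR *ᵥ w) = 0 := by
      rw [mulVec_mulVec, hW, ← mulVec_mulVec, hw0, mulVec_zero]
    have h2 : zR ((U⁻¹ : (Matrix (Fin d) (Fin d) ℤ)ˣ) : Matrix (Fin d) (Fin d) ℤ) *
        zR (U : Matrix (Fin d) (Fin d) ℤ) = 1 := by
      rw [← zR_mul, ← Units.val_mul, inv_mul_cancel, Units.val_one, zR_one]
    have h3 := congrArg (fun v => zR ((U⁻¹ : (Matrix (Fin d) (Fin d) ℤ)ˣ) :
      Matrix (Fin d) (Fin d) ℤ) *ᵥ v) h1
    simp only [mulVec_zero] at h3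
    rwa [mulVec_mulVec, h2, one_mulVec] at h3
  obtain ⟨w, hw⟩ : ∃ w : (Matrix (Fin n) (Fin n) ℝ)ˣ, (w : Matrix (Fin n) (Fin n) ℝ) = W :=
    ((Matrix.isUnit_iff_isUnit_det _).2 (isUnit_iff_ne_zero.2 hWdet))
  have hpow : ∀ j : ℤ, pw U j * PR = PR * ((w ^ j : (Matrix (Fin n) (Fin n) ℝ)ˣ) :
      Matrix (Fin n) (Fin n) ℝ) := by
    have hU1 : pw U 1 * PR = PR * (w : Matrix (Fin n) (Fin n) ℝ) := by rw [pw_one, hw, hW]
    have hUm : pw U (-1) * PR = PR * ((w⁻¹ : (Matrix (Fin n) (Fin n) ℝ)ˣ) :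
        Matrix (Fin n) (Fin n) ℝ) := by
      have h1 : pw U (-1) * pw U 1 = 1 := by rw [← pw_add]; exact pw_zero U
      have h2 : (w : Matrix (Fin n) (Fin n) ℝ) * ((w⁻¹ : (Matrix (Fin n) (Fin n) ℝ)ˣ) :
        Matrix (Fin n) (Fin n) ℝ) = 1 := by rw [← Units.val_mul, mul_inv_cancel, Units.val_one]
      calc pw U (-1) * PR = pw U (-1) * (PR * ((w : Matrix (Fin n) (Fin n) ℝ) *
            ((w⁻¹ : (Matrix (Fin n) (Fin n) ℝ)ˣ) : Matrix (Fin n) (Fin n) ℝ))) := by
            rw [h2, Matrix.mul_one]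
        _ = (pw U (-1) * pw U 1) * PR * ((w⁻¹ : (Matrix (Fin n) (Fin n) ℝ)ˣ) :
            Matrix (Fin n) (Fin n) ℝ) := by
            rw [← Matrix.mul_assoc PR, ← hU1]
            simp only [Matrix.mul_assoc]
        _ = _ := by rw [h1, Matrix.one_mul]
    intro j
    induction j using Int.induction_on with
    | zero => rw [pw_zero, _root_.zpow_zero, Units.val_one, Matrix.one_mul, Matrix.mul_one]
    | succ j ih =>
      rw [pw_add, Matrix.mul_assoc, hU1, ← Matrix.mul_assoc, ih, Matrix.mul_assoc,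
        _root_.zpow_add_one, Units.val_mul]
    | pred j ih =>
      rw [sub_eq_add_neg, pw_add, Matrix.mul_assoc, hUm, ← Matrix.mul_assoc, ih, Matrix.mul_assoc,
        ← sub_eq_add_neg, _root_.zpow_sub_one, Units.val_mul]
  -- the minors
  set N : ℤ → Matrix (Fin n) (Fin n) ℝ := fun j => (h * pw U j * PR).submatrix J id with hN
  have hNeq : ∀ j, N j = N 0 * ((w ^ j : (Matrix (Fin n) (Fin n) ℝ)ˣ) : Matrix (Fin n) (Fin n) ℝ) := by
    intro j
    have h1 : h * pw U j * PR = (h * PR) * ((w ^ j : (Matrix (Fin n) (Fin n) ℝ)ˣ) :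
        Matrix (Fin n) (Fin n) ℝ) := by
      rw [Matrix.mul_assoc, hpow, ← Matrix.mul_assoc]
    simp only [hN]
    rw [h1, pw_zero, Matrix.mul_one]
    rfl
  have hN0 : (N 0).det ≠ 0 := by
    simp only [hN]
    rw [pw_zero, Matrix.mul_one]
    exact hJ
  set δ : ℝ := |W.det| with hδ
  have hδ0 : 0 < δ := abs_pos.2 hWdet
  have hNdet : ∀ j : ℤ, |(N j).det| = |(N 0).det| * δ ^ j := by
    intro j
    rw [hNeq, det_mul, abs_mul]
    congr 1
    let detHom : (Matrix (Fin n) (Fin n) ℝ)ˣ →* ℝˣ := Units.map (Matrix.detMonoidHom)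
    have h1 : (detHom (w ^ j) : ℝˣ) = (detHom w) ^ j := map_zpow _ _ _
    have h2 : ((detHom (w ^ j) : ℝˣ) : ℝ) = ((w ^ j : (Matrix (Fin n) (Fin n) ℝ)ˣ) :
        Matrix (Fin n) (Fin n) ℝ).det := rfl
    have h3 : ((detHom w : ℝˣ) : ℝ) = W.det := by rw [← hw]; rfl
    rw [← h2, h1, Units.val_zpow_eq_zpow_val, h3, abs_zpow]
  -- the row sums
  set Λ : ℝ := ∑ k, ∑ l, |PR k l| + 1 with hLam
  have hLam0 : 0 < Λ := by positivity
  have hrow : ∀ (j : ℤ) (i : Fin d), rs (h * pw U j * PR) i ≤ C * Λ * ρ i ^ j := by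
    intro j i
    refine (rs_mul_le _ _ _).trans ?_
    have h1 : ∑ k, ∑ l, |PR k l| ≤ Λ := by rw [hLam]; linarith
    have h2 : 0 < ρ i ^ j := zpow_pos (hρ i) j
    calc rs (h * pw U j) i * ∑ k, ∑ l, |PR k l| ≤ (C * ρ i ^ j) * Λ :=
          mul_le_mul (hC j i) h1 (by positivity) (by positivity)
      _ = _ := by ring
  have hrowN : ∀ (j : ℤ) (s : Fin n), rs (N j) s ≤ C * Λ * ρ (J s) ^ j := fun j s => hrow j (J s)
  set σ : ℝ := ∏ s, ρ (J s) with hσ
  have hσ0 : 0 < σ := Finset.prod_pos fun s _ => hρ _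
  have hN0' : 0 < |(N 0).det| := abs_pos.2 hN0
  have hδσ : δ = σ := by
    have h1 : δ / σ = 1 := by
      refine zpow_unbounded (C := n.factorial * (C * Λ) ^ n / |(N 0).det|) (div_pos hδ0 hσ0)
        fun j => ?_
      rw [le_div_iff₀ hN0', div_zpow, div_mul_eq_mul_div, mul_comm, ← hNdet,
        div_le_iff₀ (zpow_pos hσ0 j)]
      refine (det_le_rs _).trans ?_
      have h2 : ∏ s, rs (N j) s ≤ ∏ s, (C * Λ * ρ (J s) ^ j) :=
        Finset.prod_le_prod (fun s _ => rs_nonneg _ _) fun s _ => hrowN j s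
      rw [Finset.prod_mul_distrib, Finset.prod_const, Finset.card_univ, Fintype.card_fin,
        Finset.prod_zpow] at h2
      calc (n.factorial : ℝ) * ∏ s, rs (N j) s ≤ n.factorial * ((C * Λ) ^ n * σ ^ j) :=
            mul_le_mul_of_nonneg_left h2 (by positivity)
        _ = _ := by ring
    exact (div_eq_one_iff_eq hσ0.ne').1 h1
  -- coefficients with respect to the chosen rows
  have hNu : IsUnit (N 0).det := isUnit_iff_ne_zero.2 hN0
  set e : Fin d → Fin n → ℝ := fun i => (h * PR) i ᵥ* (N 0)⁻¹ with he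
  have hee : ∀ i, (h * PR) i = e i ᵥ* N 0 := by
    intro i
    rw [he]
    simp only
    rw [vecMul_vecMul, Matrix.nonsing_inv_mul _ hNu, vecMul_one]
  have hej : ∀ (j : ℤ) i, (h * pw U j * PR) i = e i ᵥ* N j := by
    intro j i
    have h1 : (h * pw U j * PR) i = (h * PR) i ᵥ* ((w ^ j : (Matrix (Fin n) (Fin n) ℝ)ˣ) :
        Matrix (Fin n) (Fin n) ℝ) := by
      have h2 : h * pw U j * PR = (h * PR) * ((w ^ j : (Matrix (Fin n) (Fin n) ℝ)ˣ) :
        Matrix (Fin n) (Fin n) ℝ) := by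
        rw [Matrix.mul_assoc, hpow, ← Matrix.mul_assoc]
      rw [h2]
      rfl
    rw [h1, hee, vecMul_vecMul, ← hNeq]
  have hzero : ∀ i s, ρ (J s) ≠ ρ i → e i s = 0 := by
    intro i s hne
    by_contra hes
    apply hne
    have hq : ρ (J s) / ρ i = 1 := by
      refine zpow_unbounded (C := n.factorial * ((C * Λ) ^ n) / (|e i s| * |(N 0).det|))
        (div_pos (hρ _) (hρ i)) fun j => ?_
      have h0 : 0 < |e i s| * |(N 0).det| := mul_pos (abs_pos.2 hes) hN0'
      rw [le_div_iff₀ h0]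
      have h1 := cramer_le (N j) _ _ (hej j i) s
      rw [hNdet, hδσ] at h1
      have h2 : (∑ l, |(h * pw U j * PR) i l|) ≤ C * Λ * ρ i ^ j := hrow j i
      have h3 : ∏ r ∈ Finset.univ.erase s, rs (N j) r
          ≤ ∏ r ∈ Finset.univ.erase s, (C * Λ * ρ (J r) ^ j) :=
        Finset.prod_le_prod (fun s _ => rs_nonneg _ _) fun s _ => hrowN j s
      have h4 : ∏ r ∈ Finset.univ.erase s, (C * Λ * ρ (J r) ^ j)
          = (C * Λ) ^ (n - 1) * (σ ^ j * (ρ (J s) ^ j)⁻¹) := by
        rw [Finset.prod_mul_distrib, Finset.prod_const, Finset.card_erase_of_mem (Finset.mem_univ _),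
          Finset.card_univ, Fintype.card_fin, Finset.prod_zpow]
        congr 1
        have h7 := Finset.mul_prod_erase Finset.univ (fun s => ρ (J s)) (Finset.mem_univ s)
        rw [hσ, ← h7, mul_zpow]
        have h8 : ρ (J s) ^ j ≠ 0 := (zpow_pos (hρ _) j).ne'
        field_simp
      rw [h4] at h3
      have h5 : |e i s| * (|(N 0).det| * σ ^ j) ≤ n.factorial * ((C * Λ * ρ i ^ j) *
          ((C * Λ) ^ (n - 1) * (σ ^ j * (ρ (J s) ^ j)⁻¹))) := by
        refine h1.trans ?_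
        refine mul_le_mul_of_nonneg_left ?_ (by positivity)
        refine mul_le_mul h2 h3 (Finset.prod_nonneg fun _ _ => rs_nonneg _ _) ?_
        exact mul_nonneg (by positivity) (zpow_nonneg (hρ i).le _)
      have hσj : 0 < σ ^ j := zpow_pos hσ0 j
      have h6 : 0 < ρ (J s) ^ j := zpow_pos (hρ _) j
      have h6' : 0 < ρ i ^ j := zpow_pos (hρ _) j
      have h7 : (C * Λ) ^ n = (C * Λ) * (C * Λ) ^ (n - 1) := by
        rw [← pow_succ']; congr 1; omega
      rw [div_zpow, h7, div_mul_eq_mul_div, div_le_iff₀ h6']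
      have h8 : n.factorial * ((C * Λ * ρ i ^ j) * ((C * Λ) ^ (n - 1) * (σ ^ j * (ρ (J s) ^ j)⁻¹)))
          = (n.factorial * (C * Λ * (C * Λ) ^ (n - 1)) * ρ i ^ j / ρ (J s) ^ j) * σ ^ j := by
        field_simp
      rw [h8, ← mul_assoc] at h5
      have h9 := le_of_mul_le_mul_right h5 hσj
      rw [le_div_iff₀ h6] at h9
      linarith
    exact (div_eq_one_iff_eq (hρ i).ne').1 hq
  -- Minkowski
  set S : Finset (Fin d) := Finset.univ.filter fun i => ρ i = ρ₀ with hS
  set a : ℕ := (Finset.univ.filter fun s => ρ (J s) = ρ₀).card with ha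
  refine ⟨a, ?_⟩
  have han : a ≤ n := by
    rw [ha]
    refine (Finset.card_filter_le _ _).trans ?_
    simp
  have hSd : S.card ≤ d := by
    refine (Finset.card_filter_le _ _).trans ?_
    simp
  set E : ℝ := ∑ i, ∑ s, |e i s| + 1 with hE
  have hE0 : 0 < E := by positivity
  set r : ℝ := n.factorial * |(N 0).det| + 1 with hr
  have hr1 : 1 ≤ r := by rw [hr]; have : 0 ≤ (n.factorial : ℝ) * |(N 0).det| := by positivity
                         linarith
  have hkey : ∀ θ : ℝ, ν ≤ (E * r) ^ d * Real.exp (θ * (S.card * n - d * a)) := by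
    intro θ
    set T : Fin d → ℝ := fun i => if ρ i = ρ₀ then Real.exp (θ * (n - a)) else Real.exp (-(θ * a))
      with hT
    have hT0 : ∀ i, 0 < T i := by
      intro i; simp only [hT]; split_ifs <;> exact Real.exp_pos _
    have hTc : ∀ i k, ρ i = ρ k → T i = T k := by
      intro i k hik; simp only [hT, hik]
    -- products
    have hprodT : ∀ {m : ℕ} (F : Fin m → Fin d), ∏ s, T (F s)
        = Real.exp (θ * ((Finset.univ.filter fun s => ρ (F s) = ρ₀).card * (n : ℝ) - m * a)) := by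
      intro m F
      have h1 : ∀ s, T (F s) = Real.exp ((if ρ (F s) = ρ₀ then θ * n else 0) - θ * a) := by
        intro s
        simp only [hT]
        split_ifs
        · congr 1; ring
        · congr 1; ring
      simp only [h1]
      rw [← Real.exp_sum]
      congr 1
      rw [Finset.sum_sub_distrib, Finset.sum_const, Finset.card_univ, Fintype.card_fin,
        nsmul_eq_mul, Finset.sum_ite, Finset.sum_const_zero, add_zero, Finset.sum_const,
        nsmul_eq_mul]
      ring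
    have hJT : ∏ s, T (J s) = 1 := by
      rw [hprodT J, ← ha]
      have : θ * ((a : ℝ) * n - n * a) = 0 := by ring
      rw [this, Real.exp_zero]
    have hallT : ∏ i, T i = Real.exp (θ * (S.card * n - d * a)) := by
      have := hprodT (fun i : Fin d => i)
      rw [this]
    set Q : Matrix (Fin n) (Fin n) ℝ := diagonal (fun s => (T (J s))⁻¹) * N 0 with hQ
    have hQdet : Q.det = (N 0).det := by
      rw [hQ, det_mul, det_diagonal, Finset.prod_inv_distrib, hJT, inv_one, one_mul]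
    obtain ⟨m, hm, hmr⟩ := mink hn Q (by rw [hQdet]; exact hN0) r (by linarith) (by
      rw [hQdet]
      calc (n.factorial : ℝ) * |(N 0).det| < r := by rw [hr]; linarith
        _ = r ^ 1 := (pow_one r).symm
        _ ≤ r ^ n := pow_le_pow_right₀ hr1 hn)
    have hval : ∀ s, |(N 0 *ᵥ iR m) s| ≤ r * T (J s) := by
      intro s
      have h1 := Finset.single_le_sum (f := fun i => |(Q *ᵥ iR m) i|) (fun i _ => abs_nonneg _)
        (Finset.mem_univ s)
      have h2 : |(Q *ᵥ iR m) s| < r := lt_of_le_of_lt h1 hmr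
      rw [hQ, ← mulVec_mulVec, mulVec_diagonal, abs_mul, abs_inv, abs_of_pos (hT0 _),
        inv_mul_lt_iff₀ (hT0 _)] at h2
      linarith
    set x : Fin d → ℤ := P *ᵥ m with hx
    have hx0 : x ≠ 0 := fun h0 => hm (hP m h0)
    have hxR : iR x = PR *ᵥ iR m := by
      funext k
      simp [hx, hPR, iR, mulVec, dotProduct]
    have hrowx : ∀ i, |(h *ᵥ iR x) i| ≤ E * r * T i := by
      intro i
      have h1 : (h *ᵥ iR x) i = ∑ s, e i s * (N 0 *ᵥ iR m) s := by
        rw [hxR, mulVec_mulVec]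
        show (h * PR) i ⬝ᵥ iR m = _
        rw [hee i, ← dotProduct_mulVec]
        rfl
      rw [h1]
      refine (Finset.abs_sum_le_sum_abs _ _).trans ?_
      have h2 : ∀ s, |e i s * (N 0 *ᵥ iR m) s| ≤ |e i s| * (r * T i) := by
        intro s
        rw [abs_mul]
        by_cases hes : ρ (J s) = ρ i
        · rw [← hTc _ _ hes]
          exact mul_le_mul_of_nonneg_left (hval s) (abs_nonneg _)
        · rw [hzero i s hes, abs_zero, zero_mul, zero_mul]
      calc ∑ s, |e i s * (N 0 *ᵥ iR m) s| ≤ ∑ s, |e i s| * (r * T i) :=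
            Finset.sum_le_sum fun s _ => h2 s
        _ = (∑ s, |e i s|) * (r * T i) := by rw [Finset.sum_mul]
        _ ≤ E * (r * T i) := by
            refine mul_le_mul_of_nonneg_right ?_ (mul_nonneg (by linarith) (hT0 i).le)
            have h3 := Finset.single_le_sum (f := fun i => ∑ s, |e i s|)
              (fun i _ => Finset.sum_nonneg fun s _ => abs_nonneg _) (Finset.mem_univ i)
            rw [hE]
            linarith
        _ = _ := by ring
    have h1 := hnu x hx0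
    refine h1.trans ?_
    rw [FF_eq, Finset.abs_prod]
    calc ∏ i, |(h *ᵥ iR x) i| ≤ ∏ i, (E * r * T i) :=
          Finset.prod_le_prod (fun i _ => abs_nonneg _) fun i _ => hrowx i
      _ = _ := by
          rw [Finset.prod_mul_distrib, Finset.prod_const, Finset.card_univ, Fintype.card_fin, hallT]
  -- conclusion
  set Δ : ℝ := S.card * n - d * a with hΔ
  have hΔ0 : Δ = 0 := by
    by_contra hne
    have hpos : 0 < (E * r) ^ d := by positivity
    have h1 := hkey ((Real.log (ν / (2 * (E * r) ^ d))) / Δ)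
    rw [div_mul_cancel₀ _ hne, Real.exp_log (by positivity)] at h1
    have h2 : (E * r) ^ d * (ν / (2 * (E * r) ^ d)) = ν / 2 := by
      field_simp
    rw [h2] at h1
    linarith
  have h1 : ((S.card * n : ℕ) : ℝ) = ((d * a : ℕ) : ℝ) := by
    push_cast
    rw [hΔ] at hΔ0
    linarith
  exact_mod_cast h1

end Pool.Agent.N759.WP
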