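import Mathlib
import Pool.Agent.R629.CSD.Main
import Pool.Agent.N759.WP.Card

/-! # Long powers of a fixed matrix in the bases of an orbit -/

open Filter Topology Matrix Polynomial

namespace Pool.Agent.N759.WP

open H715R2

variable {d : ℕ}

/-- powers of a matrix of infinite order are unbounded -/
theorem bounded_powers (U : (Matrix (Fin d) (Fin d) ℤ)ˣ) (h : Matrix (Fin d) (Fin d) ℝ)
    (hdet : h.det ≠ 0) (E : ℝ) (hE : ∀ (j : ℤ) (i : Fin d), rs (h * pw U j) i ≤ E) :
    ∃ n : ℕ, 0 < n ∧ U ^ n = 1 := by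
  classical
  have hhu : IsUnit h.det := isUnit_iff_ne_zero.2 hdet
  rcases Nat.eq_zero_or_pos d with hd | hd
  · subst hd
    exact ⟨1, one_pos, by rw [pow_one]; exact Units.ext (Subsingleton.elim _ _)⟩
  set G : ℝ := ∑ i, ∑ j, |h⁻¹ i j| with hG
  have hGb : ∀ i j, |h⁻¹ i j| ≤ G := by
    intro i j
    refine (Finset.single_le_sum (f := fun j => |h⁻¹ i j|) (fun j _ => abs_nonneg _)
      (Finset.mem_univ j)).trans ?_
    exact Finset.single_le_sum (f := fun i => ∑ j, |h⁻¹ i j|)
      (fun i _ => Finset.sum_nonneg fun j _ => abs_nonneg _) (Finset.mem_univ i)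
  have hG0 : 0 ≤ G := Finset.sum_nonneg fun i _ => Finset.sum_nonneg fun j _ => abs_nonneg _
  have hE0 : 0 ≤ E := (rs_nonneg _ _).trans (hE 0 ⟨0, hd⟩)
  have hbd : ∀ (i : ℕ) a c, |((((U ^ i : (Matrix (Fin d) (Fin d) ℤ)ˣ) :
      Matrix (Fin d) (Fin d) ℤ) a c : ℤ) : ℝ)| ≤ d * (G * E) := by
    intro i a c
    set Z := pw U (i : ℤ) with hZ
    have h1 : Z = h⁻¹ * (h * Z) := by
      rw [← Matrix.mul_assoc, Matrix.nonsing_inv_mul _ hhu, Matrix.one_mul]
    have h2 : |Z a c| ≤ d * (G * E) := by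
      rw [h1, Matrix.mul_apply]
      refine (Finset.abs_sum_le_sum_abs _ _).trans ?_
      have h3 : ∑ k, |h⁻¹ a k * (h * Z) k c| ≤ ∑ _k : Fin d, G * E := by
        refine Finset.sum_le_sum fun k _ => ?_
        rw [abs_mul]
        refine mul_le_mul (hGb a k) ?_ (abs_nonneg _) hG0
        exact (abs_le_rs _ _ _).trans (hE i k)
      refine h3.trans (le_of_eq ?_)
      rw [Finset.sum_const, Finset.card_univ, Fintype.card_fin, nsmul_eq_mul]
    have h4 : Z a c = ((((U ^ i : (Matrix (Fin d) (Fin d) ℤ)ˣ) :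
      Matrix (Fin d) (Fin d) ℤ) a c : ℤ) : ℝ) := by
      rw [hZ, pw, zpow_natCast]
      rfl
    rwa [h4] at h2
  have hfin : (Set.range fun i : ℕ => ((U ^ i : (Matrix (Fin d) (Fin d) ℤ)ˣ) :
      Matrix (Fin d) (Fin d) ℤ)).Finite := by
    have h1 : ({M : Fin d → Fin d → ℤ | ∀ a c, M a c ∈ Set.Icc (-⌈d * (G * E)⌉) ⌈d * (G * E)⌉}).Finite := by
      have h2 : ({v : Fin d → ℤ | ∀ c, v c ∈ Set.Icc (-⌈d * (G * E)⌉) ⌈d * (G * E)⌉}).Finite :=
        Set.Finite.pi' fun _ => Set.finite_Icc _ _
      exact Set.Finite.pi' fun _ => h2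
    refine h1.subset ?_
    rintro _ ⟨i, rfl⟩ a c
    have h2 := abs_le.1 (hbd i a c)
    have h3 := Int.le_ceil (d * (G * E))
    constructor
    · have : ((-⌈d * (G * E)⌉ : ℤ) : ℝ) ≤ ((((U ^ i : (Matrix (Fin d) (Fin d) ℤ)ˣ) :
        Matrix (Fin d) (Fin d) ℤ) a c : ℤ) : ℝ) := by
        rw [Int.cast_neg]
        linarith [h2.1]
      exact_mod_cast this
    · have : ((((U ^ i : (Matrix (Fin d) (Fin d) ℤ)ˣ) : Matrix (Fin d) (Fin d) ℤ) a c : ℤ) : ℝ) ≤
        ((⌈d * (G * E)⌉ : ℤ) : ℝ) := h2.2.trans h3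
      exact_mod_cast this
  have hninj : ¬ Function.Injective (fun i : ℕ => ((U ^ i : (Matrix (Fin d) (Fin d) ℤ)ˣ) :
      Matrix (Fin d) (Fin d) ℤ)) := by
    intro hinj
    exact (Set.infinite_range_of_injective hinj) hfin
  rw [Function.Injective] at hninj
  push Not at hninj
  obtain ⟨i, j, hij, hne⟩ := hninj
  have hij' : U ^ i = U ^ j := Units.ext hij
  rcases lt_or_gt_of_ne hne with h1 | h1
  · refine ⟨j - i, by omega, ?_⟩
    have h2 : U ^ i * U ^ (j - i) = U ^ i * 1 := by
      rw [← pow_add, mul_one, hij']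
      congr 1; omega
    exact mul_left_cancel h2
  · refine ⟨i - j, by omega, ?_⟩
    have h2 : U ^ j * U ^ (i - j) = U ^ j * 1 := by
      rw [← pow_add, mul_one, ← hij']
      congr 1; omega
    exact mul_left_cancel h2

/-- the number of complex eigenvalues of modulus `r` -/
noncomputable def nmod (U : Matrix (Fin d) (Fin d) ℤ) (r : ℝ) : ℕ :=
  Multiset.card ((mC U).charpoly.roots.filter fun z => ‖z‖ = r)

lemma mC_eq_real (U : Matrix (Fin d) (Fin d) ℤ) : mC U = (zR U).map Complex.ofRealHom := by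
  ext i j
  simp [mC, zR]

/-- the number of rows of rate `r` is the number of eigenvalues of modulus `r` -/
theorem count_rows (U : (Matrix (Fin d) (Fin d) ℤ)ˣ) (h : Matrix (Fin d) (Fin d) ℝ)
    (hdet : h.det ≠ 0) (ρ : Fin d → ℝ) (hρ : ∀ i, 0 < ρ i) (hρ1 : ∏ i, ρ i = 1) (C : ℝ)
    (hC0 : 0 < C) (hC : ∀ (j : ℤ) (i : Fin d), rs (h * pw U j) i ≤ C * ρ i ^ j) (r : ℝ) :
    nmod (U : Matrix (Fin d) (Fin d) ℤ) r = (Finset.univ.filter fun i => ρ i = r).card := by
  classical
  have hhu : IsUnit h.det := isUnit_iff_ne_zero.2 hdet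
  set M : Matrix (Fin d) (Fin d) ℝ := h * pw U 1 * h⁻¹ with hMdef
  have hM : h * pw U 1 = M * h := by
    rw [hMdef, Matrix.mul_assoc (h * pw U 1), Matrix.nonsing_inv_mul _ hhu, Matrix.mul_one]
  have hblock : ∀ i k, ρ k ≠ ρ i → M i k = 0 := fun i k hik =>
    block_structure U h hdet ρ hρ hρ1 C hC0 hC M hM i k hik
  have hchar : M.charpoly = (zR (U : Matrix (Fin d) (Fin d) ℤ)).charpoly := by
    obtain ⟨hu, hhu'⟩ : ∃ hu : (Matrix (Fin d) (Fin d) ℝ)ˣ, (hu : Matrix (Fin d) (Fin d) ℝ) = h :=
      (Matrix.isUnit_iff_isUnit_det _).2 hhu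
    have h1 : M = (hu : Matrix (Fin d) (Fin d) ℝ) * pw U 1 * (hu : Matrix (Fin d) (Fin d) ℝ)⁻¹ := by
      rw [hMdef, ← hhu']
    rw [h1, Matrix.charpoly_units_conj, pw_one]
  have htri : M.BlockTriangular ρ := fun i j hij => hblock i j (ne_of_lt hij)
  -- factorisation over `ℂ`
  have hfac : (mC (U : Matrix (Fin d) (Fin d) ℤ)).charpoly
      = ∏ a ∈ Finset.image ρ Finset.univ,
          ((M.toSquareBlock ρ a).map Complex.ofRealHom).charpoly := by
    rw [mC_eq_real, charpoly_map, ← hchar, htri.charpoly, Polynomial.map_prod]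
    exact Finset.prod_congr rfl fun a _ => (charpoly_map _ _).symm
  -- moduli of the eigenvalues of the blocks
  have hmod : ∀ a, ∀ z ∈ ((M.toSquareBlock ρ a).map Complex.ofRealHom).charpoly.roots,
      ‖z‖ = a := by
    intro a z hz
    have hz1 : (((M.toSquareBlock ρ a).map Complex.ofRealHom).charpoly).eval z = 0 :=
      (mem_roots'.1 hz).2
    rw [eval_charpoly] at hz1
    obtain ⟨v, hv, hv0⟩ := exists_mulVec_eq_zero_iff.2 hz1
    have hev : (M.toSquareBlock ρ a).map Complex.ofRealHom *ᵥ v = z • v := by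
      rw [sub_mulVec, sub_eq_zero] at hv0
      rw [← hv0]
      funext i
      simp
    -- extension by zero
    set vt : Fin d → ℂ := fun i => if hi : ρ i = a then v ⟨i, hi⟩ else 0 with hvt
    have hMv : M.map Complex.ofRealHom *ᵥ vt = z • vt := by
      funext i
      simp only [mulVec, dotProduct, Matrix.map_apply, Pi.smul_apply, smul_eq_mul]
      have h1 : ∑ k, Complex.ofRealHom (M i k) * vt k
          = ∑ k : {k // ρ k = a}, Complex.ofRealHom (M i k) * v k := by
        have h2 : ∀ k, Complex.ofRealHom (M i k) * vt k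
            = if hk : ρ k = a then Complex.ofRealHom (M i k) * v ⟨k, hk⟩ else 0 := by
          intro k
          simp only [hvt]
          split_ifs <;> simp
        simp only [h2]
        rw [← Finset.sum_filter_add_sum_filter_not Finset.univ (fun k => ρ k = a)]
        have h3 : ∑ k ∈ Finset.univ.filter (fun k => ¬ ρ k = a),
            (if hk : ρ k = a then Complex.ofRealHom (M i k) * v ⟨k, hk⟩ else 0) = 0 :=
          Finset.sum_eq_zero fun k hk => by
            rw [Finset.mem_filter] at hk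
            rw [dif_neg hk.2]
        rw [h3, add_zero]
        rw [← Finset.sum_subtype_of_mem _ (p := fun k => ρ k = a) (fun k hk => (Finset.mem_filter.1 hk).2)]
        have h4 : Finset.subtype (fun k => ρ k = a) (Finset.univ.filter fun k => ρ k = a)
            = Finset.univ := by
          ext k
          simp only [Finset.mem_subtype, Finset.mem_filter, Finset.mem_univ, true_and, iff_true]
          exact k.2
        rw [h4]
        refine Finset.sum_congr rfl fun k _ => ?_
        rw [dif_pos k.2]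
      rw [h1]
      by_cases hi : ρ i = a
      · have h2 := congrFun hev ⟨i, hi⟩
        simp only [mulVec, dotProduct, Matrix.map_apply, Pi.smul_apply, smul_eq_mul,
          toSquareBlock_def, Matrix.of_apply] at h2
        rw [h2]
        simp only [hvt, hi, dif_pos]
      · have h2 : ∀ k : {k // ρ k = a}, Complex.ofRealHom (M i k) * v k = 0 := by
          intro k
          rw [hblock i k (by rw [k.2]; exact fun h => hi h.symm), map_zero, zero_mul]
        simp only [h2, Finset.sum_const_zero, hvt, dif_neg hi, mul_zero]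
    set hi' : Matrix (Fin d) (Fin d) ℂ := (h⁻¹).map Complex.ofRealHom with hhi
    have hhC : h.map Complex.ofRealHom * hi' = 1 := by
      have h1 := (Complex.ofRealHom).mapMatrix.map_mul h h⁻¹
      simp only [RingHom.mapMatrix_apply] at h1
      rw [hhi, ← h1, Matrix.mul_nonsing_inv _ hhu]
      simp
    set y : Fin d → ℂ := hi' *ᵥ vt with hy
    have hhy : h.map Complex.ofRealHom *ᵥ y = vt := by
      rw [hy, mulVec_mulVec, hhC, one_mulVec]
    have hUy : mC (U : Matrix (Fin d) (Fin d) ℤ) *ᵥ y = z • y := by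
      have h1 : hi' * M.map Complex.ofRealHom = mC (U : Matrix (Fin d) (Fin d) ℤ) * hi' := by
        have h2 : h⁻¹ * M = pw U 1 * h⁻¹ := by
          rw [hMdef, ← Matrix.mul_assoc, ← Matrix.mul_assoc, Matrix.nonsing_inv_mul _ hhu,
            Matrix.one_mul]
        have h3 := congrArg (fun A : Matrix (Fin d) (Fin d) ℝ => A.map Complex.ofRealHom) h2
        have h4 := (Complex.ofRealHom).mapMatrix.map_mul h⁻¹ M
        have h5 := (Complex.ofRealHom).mapMatrix.map_mul (pw U 1) h⁻¹
        simp only [RingHom.mapMatrix_apply] at h4 h5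
        rw [h4, h5, pw_one, ← mC_eq_real] at h3
        exact h3
      rw [hy, mulVec_mulVec, ← h1, ← mulVec_mulVec, hMv, mulVec_smul]
    obtain ⟨i, hi⟩ : ∃ i, vt i ≠ 0 := by
      by_contra hcon
      push Not at hcon
      apply hv
      funext k
      have h1 := hcon k
      simp only [hvt, k.2, dif_pos] at h1
      exact h1
    have hρi : ρ i = a := by
      by_contra hne
      apply hi
      simp only [hvt, dif_neg hne]
    have hy0 : y ≠ 0 := by
      intro h0
      apply hi
      rw [← hhy, h0, mulVec_zero]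
      rfl
    have hz0 : z ≠ 0 := by
      intro h0
      apply hy0
      have h1 : mC ((U⁻¹ * U : (Matrix (Fin d) (Fin d) ℤ)ˣ) : Matrix (Fin d) (Fin d) ℤ) *ᵥ y = y := by
        rw [inv_mul_cancel, Units.val_one, mC_one, one_mulVec]
      rw [Units.val_mul, mC_mul, ← mulVec_mulVec, hUy, h0, zero_smul, mulVec_zero] at h1
      exact h1.symm
    have hm0 : 0 < ‖z‖ := norm_pos_iff.2 hz0
    have hvi : 0 < ‖vt i‖ := norm_pos_iff.2 hi
    have h1 : ‖z‖ / a = 1 := by
      have ha0 : 0 < a := by rw [← hρi]; exact hρ i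
      refine zpow_unbounded (C := C * (∑ k, ‖y k‖) / ‖vt i‖) (div_pos hm0 ha0) fun j => ?_
      rw [le_div_iff₀ hvi, div_zpow, div_mul_eq_mul_div, div_le_iff₀ (zpow_pos ha0 j),
        ← norm_zpow, ← norm_mul]
      have h2 : z ^ j * vt i = ∑ k, (((h * pw U j) i k : ℝ) : ℂ) * y k := by
        have h3 := mulVec_zpow U y z hz0 hUy j
        have h4 : (h * pw U j).map Complex.ofRealHom *ᵥ y = z ^ j • vt := by
          have h5 := (Complex.ofRealHom).mapMatrix.map_mul h (pw U j)
          simp only [RingHom.mapMatrix_apply] at h5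
          rw [h5, ← mulVec_mulVec]
          have h6 : (pw U j).map Complex.ofRealHom
              = mC ((U ^ j : (Matrix (Fin d) (Fin d) ℤ)ˣ) : Matrix (Fin d) (Fin d) ℤ) :=
            (mC_eq_real _).symm
          rw [h6, h3, mulVec_smul, hhy]
        have h5 := congrFun h4 i
        rw [Pi.smul_apply, smul_eq_mul] at h5
        rw [← h5]
        rfl
      rw [h2]
      refine (norm_sum_le _ _).trans ?_
      have h3 : ∀ k, ‖(((h * pw U j) i k : ℝ) : ℂ) * y k‖ ≤ C * a ^ j * ‖y k‖ := by
        intro k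
        rw [norm_mul, Complex.norm_real, Real.norm_eq_abs]
        refine mul_le_mul_of_nonneg_right ?_ (norm_nonneg _)
        have h4 := hC j i
        rw [hρi] at h4
        exact (abs_le_rs _ _ _).trans h4
      calc ∑ k, ‖(((h * pw U j) i k : ℝ) : ℂ) * y k‖ ≤ ∑ k, C * a ^ j * ‖y k‖ :=
            Finset.sum_le_sum fun k _ => h3 k
        _ = C * (∑ k, ‖y k‖) * a ^ j := by rw [← Finset.mul_sum]; ring
    have ha0 : a ≠ 0 := by rw [← hρi]; exact (hρ i).ne'
    exact (div_eq_one_iff_eq ha0).1 h1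
  -- count
  have hne : ∏ a ∈ Finset.image ρ Finset.univ,
      ((M.toSquareBlock ρ a).map Complex.ofRealHom).charpoly ≠ 0 :=
    Finset.prod_ne_zero_iff.2 fun a _ => (charpoly_monic _).ne_zero
  rw [nmod, hfac, roots_prod _ _ hne]
  have hcount : ∀ a, Multiset.card ((((M.toSquareBlock ρ a).map
      Complex.ofRealHom).charpoly.roots).filter fun z => ‖z‖ = r)
      = if a = r then (Finset.univ.filter fun i => ρ i = r).card else 0 := by
    intro a
    split_ifs with har
    · rw [Multiset.filter_eq_self.2 (fun z hz => (hmod a z hz).trans har),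
        IsAlgClosed.card_roots_eq_natDegree, charpoly_natDegree_eq_dim, Fintype.card_subtype, har]
    · rw [Multiset.card_eq_zero, Multiset.filter_eq_nil]
      intro z hz hzr
      exact har ((hmod a z hz).symm.trans hzr)
  rw [Multiset.filter_bind, Multiset.card_bind]
  simp only [Function.comp_def]
  rw [← Finset.sum_eq_multiset_sum]
  simp only [hcount]
  rw [Finset.sum_ite_eq' (Finset.image ρ Finset.univ) r]
  split_ifs with hr
  · rfl
  · rw [Finset.mem_image] at hr
    push Not at hr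
    rw [eq_comm, Finset.card_eq_zero, Finset.filter_eq_empty_iff]
    intro i _
    exact hr i (Finset.mem_univ i)

end Pool.Agent.N759.WP
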