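import Mathlib
import Pool.Agent.N759.WP.Main

/-! # Long powers of a fixed matrix in the bases of an orbit: final form -/

open Filter Topology Matrix Polynomial

namespace Pool.Agent.N759.WP

open H715R2

variable {d : ℕ}

theorem word_main (hd : 3 ≤ d) {g : Matrix (Fin d) (Fin d) ℝ} (hg : g.det ≠ 0)
    (U : (Matrix (Fin d) (Fin d) ℤ)ˣ)
    (hU : (d.Prime ∧ ∀ n : ℕ, 0 < n → U ^ n ≠ 1) ∨
      ∃ r : ℝ, Nat.Coprime (nmod (U : Matrix (Fin d) (Fin d) ℤ) r) d) (C : ℝ)
    (h : ∀ m : ℕ, ∃ V : Matrix (Fin d) (Fin d) ℤ, |V.det| = 1 ∧ ∀ j : ℕ, j ≤ m →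
      ∃ a : Fin d → ℝ, |∏ i, a i| = 1 ∧ ∀ i k, |(diagonal a * g * zR
        (V * (U : Matrix (Fin d) (Fin d) ℤ) ^ j)) i k| ≤ C) :
    PropInt g ∨ ∀ ε : ℝ, 0 < ε → ∃ x : Fin d → ℤ, x ≠ 0 ∧ |FF g (iR x)| < ε := by
  classical
  by_cases hb : ∃ ν : ℝ, 0 < ν ∧ HasNu g ν
  swap
  · right
    intro ε hε
    by_contra hcon
    push Not at hcon
    exact hb ⟨ε, hε, fun x hx => hcon x hx⟩
  obtain ⟨ν, hν, hnu⟩ := hb
  have hd0 : 0 < d := by omega
  obtain ⟨a, γ, h', ha, hγ, hlim, hB⟩ := word_limit U h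
  have hnu' : HasNu h' ν := hasNu_limit hnu a γ ha hγ hlim
  have hdet : h'.det ≠ 0 := det_limit hg a γ ha hγ hlim
  have hne : ∀ x : Fin d → ℤ, x ≠ 0 → ∀ i, ∑ k, h' i k * (x k : ℝ) ≠ 0 := by
    intro x hx i h0
    have h1 := hnu' x hx
    have h2 : FF h' (iR x) = 0 := Finset.prod_eq_zero (Finset.mem_univ i) h0
    rw [h2, abs_zero] at h1
    linarith
  obtain ⟨ρ, hρ, hρ1, C', hC'0, hC'⟩ := exists_rho hd0 U h' _ hB hne
  -- a class with a number of elements prime to `d`
  obtain ⟨r, hr⟩ : ∃ r : ℝ, Nat.Coprime (Finset.univ.filter fun i => ρ i = r).card d := by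
    rcases hU with ⟨hprime, hinf⟩ | ⟨r, hr⟩
    · obtain ⟨i, k, hik⟩ : ∃ i k, ρ i ≠ ρ k := by
        by_contra hcon
        push Not at hcon
        have h1 : ∀ i, ρ i = 1 := by
          intro i
          have h2 : ρ i ^ d = 1 := by
            rw [← hρ1, Finset.prod_congr rfl fun k _ => hcon k i, Finset.prod_const,
              Finset.card_univ, Fintype.card_fin]
          exact (pow_eq_one_iff_of_nonneg (hρ i).le (by omega)).1 h2
        obtain ⟨n, hn, hUn⟩ := bounded_powers U h' hdet C' fun j i => by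
          have h2 := hC' j i
          rwa [h1, _root_.one_zpow, mul_one] at h2
        exact hinf n hn hUn
      refine ⟨ρ i, ?_⟩
      have h1 : 0 < (Finset.univ.filter fun k => ρ k = ρ i).card :=
        Finset.card_pos.2 ⟨i, by simp⟩
      have h2 : (Finset.univ.filter fun k => ρ k = ρ i).card < d := by
        have h3 : (Finset.univ.filter fun k => ρ k = ρ i) ⊂ Finset.univ := by
          refine ⟨Finset.subset_univ _, fun hsub => ?_⟩
          have h4 := hsub (Finset.mem_univ k)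
          rw [Finset.mem_filter] at h4
          exact hik h4.2.symm
        have h5 := Finset.card_lt_card h3
        rwa [Finset.card_univ, Fintype.card_fin] at h5
      exact (Nat.coprime_of_lt_prime h1.ne' h2 hprime).symm
    · exact ⟨r, by rwa [← count_rows U h' hdet ρ hρ hρ1 C' hC'0 hC' r]⟩
  set S : Finset (Fin d) := Finset.univ.filter fun i => ρ i = r with hS
  have hS0 : 0 < S.card := by
    rcases Nat.eq_zero_or_pos S.card with h0 | h0
    · rw [h0, Nat.coprime_zero_left] at hr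
      omega
    · exact h0
  have hSd : S.card < d := by
    have h1 : S.card ≤ d := by
      refine (Finset.card_filter_le _ _).trans ?_
      simp
    rcases h1.lt_or_eq with h2 | h2
    · exact h2
    · rw [h2, Nat.coprime_self] at hr
      omega
  -- irreducibility
  obtain ⟨f, hmon, hirr, hdvd, x, hx, hfx⟩ := exists_factor hd0 (U : Matrix (Fin d) (Fin d) ℤ)
  obtain ⟨P, hP, W, hW⟩ := cyclic_lattice U f hmon hirr x hx hfx
  obtain ⟨b, hb⟩ := sub_card U h' hdet hν hnu' ρ hρ C' hC'0 hC' hirr.natDegree_pos P hP W hW r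
  have hdn : d ∣ f.natDegree := by
    have h1 : d ∣ S.card * f.natDegree := ⟨b, hb⟩
    exact (Nat.Coprime.symm hr).dvd_of_dvd_mul_left h1
  have hcd : (mQ (U : Matrix (Fin d) (Fin d) ℤ)).charpoly.natDegree = d := by
    rw [charpoly_natDegree_eq_dim, Fintype.card_fin]
  have hfc : f = (mQ (U : Matrix (Fin d) (Fin d) ℤ)).charpoly := by
    refine (eq_of_monic_of_dvd_of_natDegree_le hmon (charpoly_monic _) hdvd ?_).symm
    rw [hcd]
    exact Nat.le_of_dvd hirr.natDegree_pos hdn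
  rw [hfc] at hirr
  -- the invariant subspace
  have hhu : IsUnit h'.det := isUnit_iff_ne_zero.2 hdet
  set M : Matrix (Fin d) (Fin d) ℝ := h' * pw U 1 * h'⁻¹ with hMdef
  have hM : h' * pw U 1 = M * h' := by
    rw [hMdef, Matrix.mul_assoc (h' * pw U 1), Matrix.nonsing_inv_mul _ hhu, Matrix.mul_one]
  refine Pool.Agent.R629.CSD.main hd hg a γ ha hγ hlim (mQ (U : Matrix (Fin d) (Fin d) ℤ)) hirr S hS0
    hSd (fun i hi => ⟨M i, fun j => ?_⟩) (Or.inl hr)
  have h1 := congrFun (congrFun hM i) j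
  rw [pw_one, Matrix.mul_apply, Matrix.mul_apply] at h1
  have h2 : ∑ k, h' i k * ((mQ (U : Matrix (Fin d) (Fin d) ℤ) k j : ℚ) : ℝ)
      = ∑ k, h' i k * zR (U : Matrix (Fin d) (Fin d) ℤ) k j := by
    refine Finset.sum_congr rfl fun k _ => ?_
    simp [mQ, zR]
  rw [h2, h1]
  symm
  refine Finset.sum_subset (Finset.subset_univ _) fun k _ hk => ?_
  have hρi : ρ i = r := (Finset.mem_filter.1 hi).2
  have hρk : ρ k ≠ ρ i := by
    intro h0
    apply hk
    rw [hS, Finset.mem_filter]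
    exact ⟨Finset.mem_univ _, h0.trans hρi⟩
  rw [block_structure U h' hdet ρ hρ hρ1 C' hC'0 hC' M hM i k hρk, zero_mul]

end Pool.Agent.N759.WP
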